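import Pool.Agent.V11328.W.Main

/-! Counting independent sets by means of the star components. -/

open Finset

namespace Pool.Agent.V11328.W

lemma ex_congr' {θ : ℝ} (h0 : 0 ≤ θ) (h1 : θ ≤ 1) (N : ℕ) {φ ψ : ℤ → ℝ}
    (h : ∀ y : ℤ, 0 ≤ y → y ≤ (N : ℤ) → φ y = ψ y) : ex θ N φ = ex θ N ψ :=
  le_antisymm (ex_mono' h0 h1 N fun y h2 h3 => (h y h2 h3).le)
    (ex_mono' h0 h1 N fun y h2 h3 => (h y h2 h3).ge)

variable {V : Type*} [Fintype V] [DecidableEq V]

/-- Sum over the subsets of a set. -/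
lemma pow_sum (W : Finset V) : ∀ ψ : ℤ → ℝ,
    ∑ Y ∈ W.powerset, ψ (#Y) = 2 ^ #W * ex (1 / 2) (#W) ψ := by
  induction W using Finset.induction_on with
  | empty => intro ψ; simp [ex_zero]
  | insert a s ha ih =>
    intro ψ
    rw [Finset.sum_powerset_insert ha, card_insert_of_notMem ha, ex_succ, ih]
    have e : ∑ t ∈ s.powerset, ψ (#(insert a t)) = ∑ t ∈ s.powerset, ψ ((#t : ℤ) + 1) := by
      refine Finset.sum_congr rfl fun t ht => ?_
      rw [card_insert_of_notMem (fun h => ha (mem_powerset.1 ht h))]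
      push_cast
      rfl
    rw [e, ih (fun y => ψ (y + 1))]
    ring

/-- Weighted sum over the subsets of a set. -/
lemma pow_sum9 (W : Finset V) : ∀ ψ : ℤ → ℝ,
    ∑ X ∈ W.powerset, 8 ^ (#W - #X) * ψ (#X) = 9 ^ #W * ex (1 / 9) (#W) ψ := by
  induction W using Finset.induction_on with
  | empty => intro ψ; simp [ex_zero]
  | insert a s ha ih =>
    intro ψ
    rw [Finset.sum_powerset_insert ha, card_insert_of_notMem ha, ex_succ]
    have e1 : ∑ t ∈ s.powerset, (8 : ℝ) ^ (#s + 1 - #t) * ψ (#t) =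
        8 * ∑ t ∈ s.powerset, (8 : ℝ) ^ (#s - #t) * ψ (#t) := by
      rw [Finset.mul_sum]
      refine Finset.sum_congr rfl fun t ht => ?_
      have h := card_le_card (mem_powerset.1 ht)
      rw [show #s + 1 - #t = (#s - #t) + 1 by omega, pow_succ]
      ring
    have e2 : ∑ t ∈ s.powerset, (8 : ℝ) ^ (#s + 1 - #(insert a t)) * ψ (#(insert a t)) =
        ∑ t ∈ s.powerset, (8 : ℝ) ^ (#s - #t) * ψ ((#t : ℤ) + 1) := by
      refine Finset.sum_congr rfl fun t ht => ?_
      rw [card_insert_of_notMem (fun h => ha (mem_powerset.1 ht h)),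
        show #s + 1 - (#t + 1) = #s - #t by omega]
      push_cast
      rfl
    rw [e1, e2, ih, ih (fun y => ψ (y + 1))]
    ring

open Classical in
/-- The independent sets. -/
noncomputable def ind (G : SimpleGraph V) : Finset (Finset V) :=
  univ.filter fun A => G.IsIndepSet (A : Set V)

/-- `z` is the centre of a component which is a star with three leaves. -/
def Star (G : SimpleGraph V) (z : V) : Prop :=
  {y | G.Adj z y}.ncard = 3 ∧ ∀ y, G.Adj z y → ∀ x, G.Adj y x → x = z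

open Classical in
/-- The set of star centres. -/
noncomputable def ZZ (G : SimpleGraph V) : Finset V := univ.filter (Star G)

open Classical in
/-- Neighbourhood. -/
noncomputable def nb (G : SimpleGraph V) (z : V) : Finset V := univ.filter fun y => G.Adj z y

/-- Leaves of the stars with centre in `X`. -/
noncomputable def WW (G : SimpleGraph V) (X : Finset V) : Finset V := X.biUnion (nb G)

/-- The other vertices. -/
noncomputable def TT (G : SimpleGraph V) : Finset V := univ \ (ZZ G ∪ WW G (ZZ G))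

/-- The independent sets avoiding the stars. -/
noncomputable def BB (G : SimpleGraph V) : Finset (Finset V) := (ind G).filter (· ⊆ TT G)

variable {G : SimpleGraph V}

lemma mem_ind {A : Finset V} : A ∈ ind G ↔ ∀ x ∈ A, ∀ y ∈ A, ¬ G.Adj x y := by
  classical
  simp only [ind, mem_filter, mem_univ, true_and, SimpleGraph.IsIndepSet, Set.Pairwise, mem_coe]
  constructor
  · intro h x hx y hy hxy
    exact h hx hy hxy.ne hxy
  · intro h x hx y hy _
    exact h x hx y hy

lemma mem_nb {z y : V} : y ∈ nb G z ↔ G.Adj z y := by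
  classical
  simp [nb]

lemma mem_ZZ {z : V} : z ∈ ZZ G ↔ Star G z := by
  classical
  simp [ZZ]

lemma card_nb {z : V} (hz : z ∈ ZZ G) : #(nb G z) = 3 := by
  classical
  rw [mem_ZZ] at hz
  rw [← hz.1, ← Set.ncard_coe_finset]
  congr 1
  ext y
  simp [mem_nb]

lemma mem_WW {X : Finset V} {y : V} : y ∈ WW G X ↔ ∃ z ∈ X, G.Adj z y := by
  simp [WW, mem_nb]

/-- Leaves are adjacent only to their centre. -/
lemma leaf {z y x : V} (hz : z ∈ ZZ G) (h : G.Adj z y) (hx : G.Adj y x) : x = z :=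
  (mem_ZZ.1 hz).2 y h x hx

lemma leaf_not_centre {z y : V} (hz : z ∈ ZZ G) (h : G.Adj z y) : y ∉ ZZ G := by
  intro hy
  have h1 := card_nb hy
  have h2 : nb G y ⊆ {z} := by
    intro x hx
    rw [mem_nb] at hx
    rw [mem_singleton]
    exact leaf hz h hx
  have h3 := card_le_card h2
  rw [h1, card_singleton] at h3
  omega

lemma card_WW {X : Finset V} (hX : X ⊆ ZZ G) : #(WW G X) = 3 * #X := by
  unfold WW
  rw [card_biUnion]
  · rw [Finset.sum_congr rfl (fun z hz => card_nb (hX hz)), Finset.sum_const, smul_eq_mul, mul_comm]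
  · intro z hz z' hz' hne
    change Disjoint (nb G z) (nb G z')
    rw [disjoint_left]
    intro y h1 h2
    rw [mem_nb] at h1 h2
    exact hne (leaf (hX hz') h2 h1.symm)

lemma mem_TT {x : V} : x ∈ TT G ↔ x ∉ ZZ G ∧ ∀ z ∈ ZZ G, ¬ G.Adj z x := by
  simp only [TT, mem_sdiff, mem_univ, true_and, mem_union, not_or, mem_WW, not_exists, not_and]

lemma mem_BB {B : Finset V} : B ∈ BB G ↔ B ∈ ind G ∧ B ⊆ TT G := by
  simp [BB]

lemma ind_subset {A A' : Finset V} (h : A ∈ ind G) (hA : A' ⊆ A) : A' ∈ ind G := by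
  rw [mem_ind] at h ⊢
  exact fun x hx y hy => h x (hA hx) y (hA hy)

/-- Gluing. -/
lemma glue_ind {X B Y : Finset V} (hX : X ⊆ ZZ G) (hB : B ∈ BB G) (hY : Y ⊆ WW G (ZZ G \ X)) :
    X ∪ Y ∪ B ∈ ind G := by
  rw [mem_BB] at hB
  -- a centre in `X` has no neighbour in the union
  have h1 : ∀ x ∈ X, ∀ y ∈ X ∪ Y ∪ B, ¬ G.Adj x y := by
    intro x hx y hy hxy
    rw [mem_union, mem_union] at hy
    rcases hy with (hy | hy) | hy
    · exact leaf_not_centre (hX hx) hxy (hX hy)
    · obtain ⟨z, hz, hzy⟩ := mem_WW.1 (hY hy)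
      rw [mem_sdiff] at hz
      have : x = z := leaf hz.1 hzy hxy.symm
      exact hz.2 (this ▸ hx)
    · exact (mem_TT.1 (hB.2 hy)).2 x (hX hx) hxy
  have h2 : ∀ x ∈ Y, ∀ y ∈ X ∪ Y ∪ B, ¬ G.Adj x y := by
    intro x hx y hy hxy
    obtain ⟨z, hz, hzx⟩ := mem_WW.1 (hY hx)
    rw [mem_sdiff] at hz
    have hyz : y = z := leaf hz.1 hzx hxy
    subst hyz
    rw [mem_union, mem_union] at hy
    rcases hy with (hy | hy) | hy
    · exact hz.2 hy
    · obtain ⟨z', hz', hzy⟩ := mem_WW.1 (hY hy)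
      rw [mem_sdiff] at hz'
      exact leaf_not_centre hz'.1 hzy hz.1
    · exact (mem_TT.1 (hB.2 hy)).1 hz.1
  rw [mem_ind]
  intro x hx y hy hxy
  have hx' := hx
  have hy' := hy
  rw [mem_union, mem_union] at hx hy
  rcases hx with (hx | hx) | hx
  · exact h1 x hx y hy' hxy
  · exact h2 x hx y hy' hxy
  · rcases hy with (hy | hy) | hy
    · exact h1 y hy x hx' hxy.symm
    · exact h2 y hy x hx' hxy.symm
    · exact (mem_ind.1 hB.1) x hx y hy hxy

lemma disj1 {X Y : Finset V} (hX : X ⊆ ZZ G) (hY : Y ⊆ WW G (ZZ G)) : Disjoint X Y := by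
  rw [disjoint_left]
  intro x hx hy
  obtain ⟨z, hz, hzx⟩ := mem_WW.1 (hY hy)
  exact leaf_not_centre hz hzx (hX hx)

lemma WW_mono {X X' : Finset V} (h : X ⊆ X') : WW G X ⊆ WW G X' :=
  biUnion_subset_biUnion_of_subset_left _ h

/-- The decomposition of independent sets. -/
lemma decomp (φ : ℕ → ℕ → ℝ) : ∑ A ∈ ind G, φ #(A ∩ ZZ G) #A =
    ∑ X ∈ (ZZ G).powerset, ∑ B ∈ BB G, ∑ Y ∈ (WW G (ZZ G \ X)).powerset,
      φ #X (#X + #Y + #B) := by
  have e : ∀ X ∈ (ZZ G).powerset, ∑ B ∈ BB G, ∑ Y ∈ (WW G (ZZ G \ X)).powerset,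
      φ #X (#X + #Y + #B) = ∑ p ∈ BB G ×ˢ (WW G (ZZ G \ X)).powerset,
      φ #X (#X + #p.2 + #p.1) := by
    intro X _
    rw [Finset.sum_product]
  rw [Finset.sum_congr rfl e, Finset.sum_sigma']
  have hT : ∀ B ⊆ TT G, Disjoint (ZZ G) B ∧ Disjoint (WW G (ZZ G)) B := by
    intro B hB
    constructor
    · rw [disjoint_left]
      intro x hx hxB
      exact (mem_TT.1 (hB hxB)).1 hx
    · rw [disjoint_left]
      intro x hx hxB
      obtain ⟨z, hz, hzx⟩ := mem_WW.1 hx
      exact (mem_TT.1 (hB hxB)).2 z hz hzx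
  symm
  refine Finset.sum_bij' (fun x _ => x.1 ∪ x.2.2 ∪ x.2.1)
    (fun A _ => ⟨A ∩ ZZ G, (A ∩ TT G, A ∩ WW G (ZZ G))⟩) ?_ ?_ ?_ ?_ ?_
  · rintro ⟨X, B, Y⟩ h
    simp only [mem_sigma, mem_powerset, mem_product] at h
    exact glue_ind h.1 h.2.1 h.2.2
  · intro A hA
    simp only [mem_sigma, mem_powerset, mem_product]
    refine ⟨inter_subset_right, mem_BB.2 ⟨ind_subset hA inter_subset_left, inter_subset_right⟩, ?_⟩
    intro y hy
    rw [mem_inter] at hy
    obtain ⟨z, hz, hzy⟩ := mem_WW.1 hy.2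
    refine mem_WW.2 ⟨z, ?_, hzy⟩
    rw [mem_sdiff, mem_inter]
    exact ⟨hz, fun h => (mem_ind.1 hA) z h.1 y hy.1 hzy⟩
  · rintro ⟨X, B, Y⟩ h
    simp only [mem_sigma, mem_powerset, mem_product] at h
    obtain ⟨hX, hB, hY⟩ := h
    rw [mem_BB] at hB
    have hY2 : Y ⊆ WW G (ZZ G) := hY.trans (WW_mono sdiff_subset)
    have hd := hT B hB.2
    have e1 : (X ∪ Y ∪ B) ∩ ZZ G = X := by
      ext x
      simp only [mem_inter, mem_union]
      constructor
      · rintro ⟨(h | h) | h, hz⟩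
        · exact h
        · exact absurd hz (by
            obtain ⟨z, hz', hzx⟩ := mem_WW.1 (hY2 h)
            exact leaf_not_centre hz' hzx)
        · exact absurd h ((disjoint_left.1 hd.1) hz)
      · exact fun h => ⟨Or.inl (Or.inl h), hX h⟩
    have e2 : (X ∪ Y ∪ B) ∩ TT G = B := by
      ext x
      simp only [mem_inter, mem_union]
      constructor
      · rintro ⟨(h | h) | h, hz⟩
        · exact absurd (hX h) (mem_TT.1 hz).1
        · obtain ⟨z, hz', hzx⟩ := mem_WW.1 (hY2 h)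
          exact absurd hzx ((mem_TT.1 hz).2 z hz')
        · exact h
      · exact fun h => ⟨Or.inr h, hB.2 h⟩
    have e3 : (X ∪ Y ∪ B) ∩ WW G (ZZ G) = Y := by
      ext x
      simp only [mem_inter, mem_union]
      constructor
      · rintro ⟨(h | h) | h, hz⟩
        · exact absurd (hX h) (by
            obtain ⟨z, hz', hzx⟩ := mem_WW.1 hz
            exact leaf_not_centre hz' hzx)
        · exact h
        · exact absurd h ((disjoint_left.1 hd.2) hz)
      · exact fun h => ⟨Or.inl (Or.inr h), hY2 h⟩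
    simp only [e1, e2, e3]
  · intro A hA
    simp only
    ext x
    simp only [mem_union, mem_inter]
    constructor
    · rintro ((h | h) | h) <;> exact h.1
    · intro h
      by_cases h1 : x ∈ ZZ G
      · exact Or.inl (Or.inl ⟨h, h1⟩)
      by_cases h2 : x ∈ WW G (ZZ G)
      · exact Or.inl (Or.inr ⟨h, h2⟩)
      refine Or.inr ⟨h, mem_TT.2 ⟨h1, fun z hz hzx => h2 (mem_WW.2 ⟨z, hz, hzx⟩)⟩⟩
  · rintro ⟨X, B, Y⟩ h
    simp only [mem_sigma, mem_powerset, mem_product] at h
    obtain ⟨hX, hB, hY⟩ := h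
    rw [mem_BB] at hB
    have hY2 : Y ⊆ WW G (ZZ G) := hY.trans (WW_mono sdiff_subset)
    have hd := hT B hB.2
    simp only
    have e1 : (X ∪ Y ∪ B) ∩ ZZ G = X := by
      ext x
      simp only [mem_inter, mem_union]
      constructor
      · rintro ⟨(h | h) | h, hz⟩
        · exact h
        · exact absurd hz (by
            obtain ⟨z, hz', hzx⟩ := mem_WW.1 (hY2 h)
            exact leaf_not_centre hz' hzx)
        · exact absurd h ((disjoint_left.1 hd.1) hz)
      · exact fun h => ⟨Or.inl (Or.inl h), hX h⟩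
    rw [e1]
    congr 1
    rw [card_union_of_disjoint, card_union_of_disjoint (disj1 hX hY2)]
    rw [disjoint_union_left]
    exact ⟨disjoint_of_subset_left hX hd.1, disjoint_of_subset_left hY2 hd.2⟩

/-- Counting formula. -/
lemma count_gen (f : ℕ → ℤ) :
    (#((ind G).filter fun A => (#A : ℤ) = f #(A ∩ ZZ G)) : ℝ) = 9 ^ #(ZZ G) *
      ex (1 / 9) #(ZZ G) (fun s => HH (BB G) (fun B => (#B : ℤ)) (3 * (#(ZZ G) - s.toNat))
        (f s.toNat - s)) := by
  rw [← pow_sum9]
  have h := decomp (G := G) (fun s m => if (m : ℤ) = f s then (1 : ℝ) else 0)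
  rw [Finset.card_filter]
  push_cast
  rw [h]
  refine Finset.sum_congr rfl fun X hX => ?_
  rw [mem_powerset] at hX
  rw [Int.toNat_natCast, HH, Finset.mul_sum]
  refine Finset.sum_congr rfl fun B _ => ?_
  have hW : #(WW G (ZZ G \ X)) = 3 * (#(ZZ G) - #X) := by
    rw [card_WW sdiff_subset, card_sdiff_of_subset hX]
  have h2 := pow_sum (WW G (ZZ G \ X))
    (fun y => if y = f #X - #X - (#B : ℤ) then (1 : ℝ) else 0)
  rw [ex_ind, hW, pow_mul] at h2
  have h3 : (2 : ℝ) ^ 3 = 8 := by norm_num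
  rw [h3] at h2
  rw [← h2]
  refine Finset.sum_congr rfl fun Y _ => ?_
  push_cast
  by_cases hc : (#Y : ℤ) = f #X - #X - (#B : ℤ)
  · rw [if_pos hc, if_pos (by linarith)]
  · rw [if_neg hc, if_neg (fun h' => hc (by linarith))]

/-- Total number of independent sets. -/
lemma count_all : (#(ind G) : ℝ) = 9 ^ #(ZZ G) * #(BB G) := by
  have h := decomp (G := G) (fun _ _ => (1 : ℝ))
  have h0 : (#(ind G) : ℝ) = ∑ A ∈ ind G, (1 : ℝ) := by simp
  rw [h0, h]
  have h9 := pow_sum9 (ZZ G) (fun _ => (#(BB G) : ℝ))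
  rw [ex_const] at h9
  rw [← h9]
  refine Finset.sum_congr rfl fun X hX => ?_
  rw [mem_powerset] at hX
  have hW : #(WW G (ZZ G \ X)) = 3 * (#(ZZ G) - #X) := by
    rw [card_WW sdiff_subset, card_sdiff_of_subset hX]
  simp only [Finset.sum_const, card_powerset, hW, nsmul_eq_mul, mul_one]
  rw [pow_mul]
  push_cast
  norm_num
  ring

lemma layer_eq (r : ℤ) : (#((ind G).filter fun A => (#A : ℤ) = r) : ℝ) = 9 ^ #(ZZ G) *
    LR (BB G) (fun B => (#B : ℤ)) #(ZZ G) r := by
  have h := count_gen (G := G) (fun _ => r)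
  rw [h]
  rfl

lemma level_eq (t : ℤ) :
    (#((ind G).filter fun A => ((#A + #(A ∩ ZZ G) / 2 : ℕ) : ℤ) = t) : ℝ) = 9 ^ #(ZZ G) *
    FR (BB G) (fun B => (#B : ℤ)) #(ZZ G) t := by
  have h := count_gen (G := G) (fun s => t - ((s / 2 : ℕ) : ℤ))
  have e : (ind G).filter (fun A => ((#A + #(A ∩ ZZ G) / 2 : ℕ) : ℤ) = t) =
      (ind G).filter fun A => (#A : ℤ) = t - ((#(A ∩ ZZ G) / 2 : ℕ) : ℤ) := by
    apply Finset.filter_congr
    intro A _
    rw [Nat.cast_add]
    constructor <;> intro h <;> linarith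
  rw [e, h]
  congr 1
  unfold FR
  apply ex_congr' (by norm_num) (by norm_num)
  intro y hy _
  obtain ⟨k, rfl⟩ := Int.eq_ofNat_of_zero_le hy
  rw [Int.toNat_natCast]
  congr 1
  push_cast
  ring

/-- The modified levels are antichains. -/
lemma level_antichain (Z : Finset V) (t : ℤ) :
    IsAntichain (fun A B : Finset V => A ⊆ B)
      (((ind G).filter fun A => ((#A + #(A ∩ Z) / 2 : ℕ) : ℤ) = t) : Set (Finset V)) := by
  intro A hA B hB hne hsub
  simp only [coe_filter, Set.mem_ofPred_eq] at hA hB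
  have h1 : A ⊂ B := lt_of_le_of_ne hsub hne
  have h2 := card_lt_card h1
  have h3 : #(A ∩ Z) ≤ #(B ∩ Z) := card_le_card (inter_subset_inter_right hsub)
  have h4 : #A + #(A ∩ Z) / 2 = #B + #(B ∩ Z) / 2 := by
    have := hA.2.trans hB.2.symm
    exact_mod_cast this
  omega

end Pool.Agent.V11328.W
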