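import Mathlib

/-! The expectation operator of a binomial random variable, defined recursively, and local
estimates for the symmetric binomial distribution. -/

open Finset

namespace Pool.Agent.V11328.W

/-- Expectation of `φ` at a binomial random variable with parameters `N`, `θ`. -/
noncomputable def ex (θ : ℝ) : ℕ → (ℤ → ℝ) → ℝ
  | 0, φ => φ 0
  | N + 1, φ => (1 - θ) * ex θ N φ + θ * ex θ N (fun y => φ (y + 1))

/-- Point probabilities. -/
noncomputable def bb (θ : ℝ) : ℕ → ℤ → ℝ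
  | 0, y => if y = 0 then 1 else 0
  | N + 1, y => (1 - θ) * bb θ N y + θ * bb θ N (y - 1)

variable {θ : ℝ}

lemma ex_zero (φ : ℤ → ℝ) : ex θ 0 φ = φ 0 := rfl
lemma ex_succ (N : ℕ) (φ : ℤ → ℝ) :
    ex θ (N + 1) φ = (1 - θ) * ex θ N φ + θ * ex θ N (fun y => φ (y + 1)) := rfl
lemma bb_zero (y : ℤ) : bb θ 0 y = if y = 0 then 1 else 0 := rfl
lemma bb_succ (N : ℕ) (y : ℤ) : bb θ (N + 1) y = (1 - θ) * bb θ N y + θ * bb θ N (y - 1) := rfl

lemma ex_mono (h0 : 0 ≤ θ) (h1 : θ ≤ 1) (N : ℕ) : ∀ {φ ψ : ℤ → ℝ}, (∀ y, φ y ≤ ψ y) →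
    ex θ N φ ≤ ex θ N ψ := by
  induction N with
  | zero => intro φ ψ h; exact h 0
  | succ N ih =>
    intro φ ψ h
    rw [ex_succ, ex_succ]
    have h2 := ih h
    have h3 := ih (φ := fun y => φ (y + 1)) (ψ := fun y => ψ (y + 1)) (fun y => h _)
    have h4 : 0 ≤ 1 - θ := by linarith
    exact add_le_add (mul_le_mul_of_nonneg_left h2 h4) (mul_le_mul_of_nonneg_left h3 h0)

/-- Monotonicity on the range of the binomial variable. -/
lemma ex_mono' (h0 : 0 ≤ θ) (h1 : θ ≤ 1) (N : ℕ) : ∀ {φ ψ : ℤ → ℝ},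
    (∀ y : ℤ, 0 ≤ y → y ≤ (N : ℤ) → φ y ≤ ψ y) → ex θ N φ ≤ ex θ N ψ := by
  induction N with
  | zero => intro φ ψ h; exact h 0 le_rfl le_rfl
  | succ N ih =>
    intro φ ψ h
    rw [ex_succ, ex_succ]
    have h2 := ih (φ := φ) (ψ := ψ) (fun y h3 h4 => h y h3 (by push_cast; linarith))
    have h3 := ih (φ := fun y => φ (y + 1)) (ψ := fun y => ψ (y + 1))
      (fun y h3 h4 => h _ (by linarith) (by push_cast; linarith))
    have h4 : 0 ≤ 1 - θ := by linarith
    exact add_le_add (mul_le_mul_of_nonneg_left h2 h4) (mul_le_mul_of_nonneg_left h3 h0)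

lemma ex_add (N : ℕ) : ∀ (φ ψ : ℤ → ℝ), ex θ N (fun y => φ y + ψ y) = ex θ N φ + ex θ N ψ := by
  induction N with
  | zero => intro φ ψ; rfl
  | succ N ih =>
    intro φ ψ
    rw [ex_succ, ex_succ, ex_succ, ih, ih (fun y => φ (y + 1)) (fun y => ψ (y + 1))]
    ring

lemma ex_smul (N : ℕ) : ∀ (c : ℝ) (φ : ℤ → ℝ), ex θ N (fun y => c * φ y) = c * ex θ N φ := by
  induction N with
  | zero => intro c φ; rfl
  | succ N ih =>
    intro c φ
    rw [ex_succ, ex_succ, ih, ih c (fun y => φ (y + 1))]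
    ring

lemma ex_const (N : ℕ) (c : ℝ) : ex θ N (fun _ => c) = c := by
  induction N with
  | zero => rfl
  | succ N ih => rw [ex_succ, ih]; ring

lemma ex_sub (N : ℕ) (φ ψ : ℤ → ℝ) : ex θ N (fun y => φ y - ψ y) = ex θ N φ - ex θ N ψ := by
  have h := ex_add (θ := θ) N φ (fun y => (-1) * ψ y)
  rw [ex_smul] at h
  have e : (fun y => φ y - ψ y) = fun y => φ y + (-1) * ψ y := by
    funext y; ring
  rw [e, h]; ring

lemma ex_sum {ι : Type*} (s : Finset ι) (N : ℕ) (φ : ι → ℤ → ℝ) :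
    ex θ N (fun y => ∑ i ∈ s, φ i y) = ∑ i ∈ s, ex θ N (φ i) := by
  classical
  induction s using Finset.induction_on with
  | empty => simp [ex_const]
  | insert a s ha ih =>
    rw [Finset.sum_insert ha, ← ih, ← ex_add]
    congr 1
    funext y
    rw [Finset.sum_insert ha]

lemma abs_ex_le (h0 : 0 ≤ θ) (h1 : θ ≤ 1) (N : ℕ) (φ : ℤ → ℝ) :
    |ex θ N φ| ≤ ex θ N (fun y => |φ y|) := by
  rw [abs_le]
  constructor
  · have h := ex_mono h0 h1 N (φ := fun y => (-1) * |φ y|) (ψ := φ)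
      (fun y => by have := neg_abs_le (φ y); linarith)
    rw [ex_smul] at h
    linarith
  · exact ex_mono h0 h1 N (fun y => le_abs_self _)

lemma ex_nonneg (h0 : 0 ≤ θ) (h1 : θ ≤ 1) (N : ℕ) {φ : ℤ → ℝ} (h : ∀ y, 0 ≤ φ y) :
    0 ≤ ex θ N φ := by
  have := ex_mono h0 h1 N (φ := fun _ => 0) h
  rwa [ex_const] at this

/-- Second moment. -/
lemma ex_sq (N : ℕ) : ∀ a : ℝ, ex θ N (fun y => ((y : ℝ) - a) ^ 2) =
    N * (θ * (1 - θ)) + (N * θ - a) ^ 2 := by
  induction N with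
  | zero => intro a; rw [ex_zero]; push_cast; ring
  | succ N ih =>
    intro a
    rw [ex_succ, ih]
    have e : (fun y : ℤ => (((y + 1 : ℤ) : ℝ) - a) ^ 2) = fun y : ℤ => ((y : ℝ) - (a - 1)) ^ 2 := by
      funext y; push_cast; ring
    rw [e, ih]
    push_cast
    ring

/-- Point probabilities are expectations of indicators. -/
lemma ex_ind (N : ℕ) : ∀ z : ℤ, ex θ N (fun y => if y = z then 1 else 0) = bb θ N z := by
  induction N with
  | zero => intro z; rw [ex_zero, bb_zero]; simp [eq_comm]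
  | succ N ih =>
    intro z
    rw [ex_succ, bb_succ, ih]
    have e : (fun y : ℤ => if y + 1 = z then (1 : ℝ) else 0) = fun y : ℤ => if y = z - 1 then 1 else 0 := by
      funext y
      by_cases h : y + 1 = z
      · rw [if_pos h, if_pos (by linarith)]
      · rw [if_neg h, if_neg (fun h' => h (by linarith))]
    rw [e, ih]

lemma bb_nonneg (h0 : 0 ≤ θ) (h1 : θ ≤ 1) (N : ℕ) (z : ℤ) : 0 ≤ bb θ N z := by
  rw [← ex_ind]
  exact ex_nonneg h0 h1 N (fun y => by split_ifs <;> norm_num)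

/-- Partial sums are bounded by the expectation. -/
lemma sum_le_ex (h0 : 0 ≤ θ) (h1 : θ ≤ 1) (N : ℕ) {ψ : ℤ → ℝ} (hψ : ∀ y, 0 ≤ ψ y)
    (F : Finset ℤ) : ∑ z ∈ F, bb θ N z * ψ z ≤ ex θ N ψ := by
  classical
  have h : ∀ z, bb θ N z * ψ z = ex θ N (fun y => if y = z then ψ z else 0) := by
    intro z
    rw [← ex_ind, mul_comm, ← ex_smul]
    congr 1
    funext y
    split_ifs <;> simp
  simp_rw [h]
  rw [← ex_sum]
  refine ex_mono h0 h1 N fun y => ?_
  rw [Finset.sum_ite_eq]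
  split_ifs
  · exact le_rfl
  · exact hψ y

/-- Support. -/
lemma bb_neg (N : ℕ) : ∀ z : ℤ, z < 0 → bb θ N z = 0 := by
  induction N with
  | zero => intro z hz; rw [bb_zero, if_neg (by omega)]
  | succ N ih => intro z hz; rw [bb_succ, ih z hz, ih (z - 1) (by omega)]; ring

lemma bb_big (N : ℕ) : ∀ z : ℤ, (N : ℤ) < z → bb θ N z = 0 := by
  induction N with
  | zero => intro z hz; rw [bb_zero, if_neg (by push_cast at hz; omega)]
  | succ N ih =>
    intro z hz
    push_cast at hz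
    rw [bb_succ, ih z (by omega), ih (z - 1) (by omega)]; ring

/-- Ratio of consecutive point probabilities. -/
lemma bb_ratio (N : ℕ) : ∀ y : ℤ,
    (1 - θ) * ((y : ℝ) + 1) * bb θ N (y + 1) = θ * ((N : ℝ) - y) * bb θ N y := by
  induction N with
  | zero =>
    intro y
    rw [bb_zero, bb_zero]
    by_cases h : y = 0
    · subst h; simp
    · by_cases h2 : y + 1 = 0
      · have : (y : ℝ) + 1 = 0 := by exact_mod_cast h2
        rw [this, if_neg h]; simp
      · rw [if_neg h, if_neg h2]; simp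
  | succ N ih =>
    intro y
    have h1 := ih y
    have h2 := ih (y - 1)
    rw [sub_add_cancel] at h2
    push_cast at h2
    rw [bb_succ, bb_succ, add_sub_cancel_right]
    push_cast
    linear_combination (1 - θ) * h1 + θ * h2

lemma bb_add (N j : ℕ) : ∀ y : ℤ, bb θ (N + j) y = ex θ j (fun i => bb θ N (y - i)) := by
  induction j with
  | zero => intro y; rw [ex_zero]; simp
  | succ j ih =>
    intro y
    rw [← add_assoc, bb_succ, ex_succ, ih, ih]
    congr 3
    funext i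
    congr 1
    ring

/-! ### The symmetric case -/

/-- Weighted absolute first moment, over a finite set. -/
lemma abs_moment (N : ℕ) (F : Finset ℤ) :
    ∑ z ∈ F, bb (1 / 2) N z * |(N : ℝ) - 2 * z| ≤ Real.sqrt N := by
  have h0 : (0 : ℝ) ≤ 1 / 2 := by norm_num
  have h1 : (1 : ℝ) / 2 ≤ 1 := by norm_num
  rcases Nat.eq_zero_or_pos N with hN | hN
  · subst hN
    simp only [Nat.cast_zero, Real.sqrt_zero]
    apply le_of_eq
    apply Finset.sum_eq_zero
    intro z _
    rw [bb_zero]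
    split_ifs with h
    · subst h; simp
    · simp
  refine (sum_le_ex h0 h1 N (ψ := fun z => |(N : ℝ) - 2 * z|) (fun y => abs_nonneg _) F).trans ?_
  have hs : 0 < Real.sqrt N := Real.sqrt_pos.2 (by exact_mod_cast hN)
  have hs2 : Real.sqrt N * Real.sqrt N = N := Real.mul_self_sqrt (Nat.cast_nonneg N)
  have h2 : ∀ y : ℤ, |(N : ℝ) - 2 * y| ≤
      (2 / Real.sqrt N) * ((y : ℝ) - N / 2) ^ 2 + Real.sqrt N / 2 := by
    intro y
    have h3 : ((y : ℝ) - N / 2) ^ 2 = |(N : ℝ) - 2 * y| ^ 2 / 4 := by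
      rw [sq_abs]; ring
    rw [h3, div_mul_div_comm, div_add_div _ _ (by positivity) (by norm_num),
      le_div_iff₀ (by positivity)]
    nlinarith [sq_nonneg (|(N : ℝ) - 2 * y| - Real.sqrt N)]
  refine (ex_mono h0 h1 N h2).trans ?_
  rw [ex_add, ex_smul, ex_const, ex_sq]
  have h4 : (2 / Real.sqrt N) * ((N : ℝ) * (1 / 2 * (1 - 1 / 2)) + (N * (1 / 2) - N / 2) ^ 2) =
      Real.sqrt N / 2 := by
    rw [div_mul_eq_mul_div, div_eq_iff hs.ne']
    nlinarith
  rw [h4]
  linarith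

/-- Consecutive difference. -/
noncomputable def df (N : ℕ) (y : ℤ) : ℝ := bb (1 / 2) N (y + 1) - bb (1 / 2) N y

lemma df_eq (N : ℕ) (y : ℤ) : df N y = 2 / ((N : ℝ) + 1) *
    (bb (1 / 2) (N + 1) (y + 1) * (((N + 1 : ℕ) : ℝ) - 2 * ((y + 1 : ℤ) : ℝ))) := by
  have h := bb_ratio (θ := 1 / 2) N y
  have hN : (0 : ℝ) < (N : ℝ) + 1 := by positivity
  rw [df, bb_succ, add_sub_cancel_right, div_mul_eq_mul_div, eq_div_iff hN.ne']
  push_cast
  linear_combination (4 : ℝ) * h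

/-- Total variation. -/
lemma tv (N : ℕ) (F : Finset ℤ) : ∑ z ∈ F, |df N z| ≤ 2 / Real.sqrt (N + 1) := by
  have hN : (0 : ℝ) < (N : ℝ) + 1 := by positivity
  have h1 : ∀ z ∈ F, |df N z| = 2 / ((N : ℝ) + 1) *
      (bb (1 / 2) (N + 1) (z + 1) * |((N + 1 : ℕ) : ℝ) - 2 * ((z + 1 : ℤ) : ℝ)|) := by
    intro z _
    rw [df_eq, abs_mul, abs_mul, abs_of_pos (by positivity : (0 : ℝ) < 2 / ((N : ℝ) + 1)),
      abs_of_nonneg (bb_nonneg (by norm_num) (by norm_num) _ _)]
  rw [Finset.sum_congr rfl h1, ← Finset.mul_sum]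
  have h2 := abs_moment (N + 1) (F.map (addRightEmbedding 1))
  rw [Finset.sum_map] at h2
  simp only [addRightEmbedding_apply] at h2
  refine (mul_le_mul_of_nonneg_left h2 (by positivity)).trans ?_
  have hs : 0 < Real.sqrt ((N : ℝ) + 1) := Real.sqrt_pos.2 hN
  have hs2 : Real.sqrt ((N : ℝ) + 1) * Real.sqrt ((N : ℝ) + 1) = N + 1 := Real.mul_self_sqrt hN.le
  push_cast
  rw [div_mul_eq_mul_div, div_le_div_iff₀ hN hs]
  nlinarith

/-- Supremum bound. -/
lemma bb_sup (N : ℕ) (y : ℤ) : bb (1 / 2) N y ≤ 1 / Real.sqrt (N + 1) := by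
  by_cases hy : y < 0
  · rw [bb_neg N y hy]; positivity
  by_cases hy2 : (N : ℤ) < y
  · rw [bb_big N y hy2]; positivity
  push Not at hy hy2
  obtain ⟨m, rfl⟩ := Int.eq_ofNat_of_zero_le hy
  have hm : m ≤ N := by exact_mod_cast hy2
  -- telescoping from the left
  have hl : ∀ k : ℕ, ∑ i ∈ range (k + 1), df N ((i : ℤ) - 1) = bb (1 / 2) N k := by
    intro k
    induction k with
    | zero =>
      simp only [zero_add, range_one, sum_singleton, Nat.cast_zero, zero_sub, df, neg_add_cancel]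
      rw [bb_neg N (-1) (by norm_num)]
      simp
    | succ k ih =>
      rw [Finset.sum_range_succ, ih, df]
      push_cast
      rw [add_sub_cancel_right]
      ring
  have hr : ∀ k : ℕ, ∑ i ∈ range (k + 1), df N ((m : ℤ) + i) =
      bb (1 / 2) N (m + k + 1) - bb (1 / 2) N m := by
    intro k
    induction k with
    | zero => simp [df]
    | succ k ih =>
      rw [Finset.sum_range_succ, ih, df]
      push_cast
      rw [← add_assoc]
      ring
  have h1 := hl m
  have h2 := hr (N - m)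
  have h3 : bb (1 / 2) N ((m : ℤ) + (N - m : ℕ) + 1) = 0 := by
    apply bb_big
    push_cast [Nat.cast_sub hm]
    linarith
  rw [h3, zero_sub] at h2
  have h4 : ∑ i ∈ range (m + 1), |df N ((i : ℤ) - 1)| + ∑ i ∈ range (N - m + 1), |df N ((m : ℤ) + i)| ≤
      2 / Real.sqrt (N + 1) := by
    have e1 : ∑ i ∈ range (m + 1), |df N ((i : ℤ) - 1)| =
        ∑ z ∈ (range (m + 1)).image (fun i : ℕ => (i : ℤ) - 1), |df N z| := by
      rw [Finset.sum_image]
      intro a _ b _ h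
      simpa using h
    have e2 : ∑ i ∈ range (N - m + 1), |df N ((m : ℤ) + i)| =
        ∑ z ∈ (range (N - m + 1)).image (fun i : ℕ => (m : ℤ) + i), |df N z| := by
      rw [Finset.sum_image]
      intro a _ b _ h
      simpa using h
    rw [e1, e2, ← Finset.sum_union]
    · exact tv N _
    · rw [disjoint_left]
      intro z h1 h2
      rw [mem_image] at h1 h2
      obtain ⟨a, ha, rfl⟩ := h1
      obtain ⟨b, hb, h⟩ := h2
      rw [mem_range] at ha hb
      omega
  have h5 := Finset.abs_sum_le_sum_abs (fun i : ℕ => df N ((i : ℤ) - 1)) (range (m + 1))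
  have h6 := Finset.abs_sum_le_sum_abs (fun i : ℕ => df N ((m : ℤ) + i)) (range (N - m + 1))
  rw [h1] at h5
  rw [h2, abs_neg] at h6
  have h7 := le_abs_self (bb (1 / 2) N (m : ℤ))
  have h8 : 2 * bb (1 / 2) N (m : ℤ) ≤ 2 / Real.sqrt (N + 1) := by linarith
  have h9 : 2 / Real.sqrt ((N : ℝ) + 1) = 2 * (1 / Real.sqrt (N + 1)) := by ring
  rw [h9] at h8
  have h10 : bb (1 / 2) N (m : ℤ) ≤ 1 / Real.sqrt (N + 1) := by linarith
  exact_mod_cast h10

/-- `ex` as a sum. -/
lemma ex_eq_sum (N : ℕ) : ∀ φ : ℤ → ℝ, ex θ N φ = ∑ i ∈ range (N + 1), bb θ N i * φ i := by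
  induction N with
  | zero => intro φ; simp [ex_zero, bb_zero]
  | succ N ih =>
    intro φ
    rw [ex_succ, ih, ih]
    have e : ∑ i ∈ range (N + 1 + 1), bb θ (N + 1) i * φ i =
        (1 - θ) * ∑ i ∈ range (N + 1 + 1), bb θ N i * φ i +
        θ * ∑ i ∈ range (N + 1 + 1), bb θ N ((i : ℤ) - 1) * φ i := by
      rw [Finset.mul_sum, Finset.mul_sum, ← Finset.sum_add_distrib]
      refine Finset.sum_congr rfl fun i _ => ?_
      rw [bb_succ]; ring
    rw [e]
    congr 1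
    · rw [Finset.sum_range_succ (n := N + 1), bb_big N _ (by push_cast; omega)]
      simp
    · rw [Finset.sum_range_succ' (n := N + 1)]
      rw [bb_neg N _ (by norm_num)]
      simp

/-- Lipschitz bound. -/
lemma bb_lip {N : ℕ} (hN : 1 ≤ N) (y : ℤ) : |df N y| ≤ 4 / N := by
  obtain ⟨a, b, rfl, ha, hb⟩ : ∃ a b : ℕ, N = a + b ∧ N ≤ 2 * (a + 1) ∧ N ≤ 2 * (b + 1) :=
    ⟨N / 2, N - N / 2, by omega, by omega, by omega⟩
  have h1 : df (a + b) y = ex (1 / 2) b (fun i => df a (y - i)) := by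
    unfold df
    rw [ex_sub, bb_add, bb_add]
    congr 2
    funext i
    congr 1
    ring
  rw [h1, ex_eq_sum]
  refine (Finset.abs_sum_le_sum_abs _ _).trans ?_
  have h2 : ∀ i ∈ range (b + 1), |bb (1 / 2) b i * df a (y - i)| ≤
      1 / Real.sqrt (b + 1) * |df a (y - i)| := by
    intro i _
    rw [abs_mul, abs_of_nonneg (bb_nonneg (by norm_num) (by norm_num) _ _)]
    exact mul_le_mul_of_nonneg_right (bb_sup b i) (abs_nonneg _)
  refine (Finset.sum_le_sum h2).trans ?_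
  rw [← Finset.mul_sum]
  have h3 : ∑ i ∈ range (b + 1), |df a (y - i)| ≤ 2 / Real.sqrt (a + 1) := by
    have e1 : ∑ i ∈ range (b + 1), |df a (y - i)| =
        ∑ z ∈ (range (b + 1)).image (fun i : ℕ => y - (i : ℤ)), |df a z| := by
      rw [Finset.sum_image]
      intro a _ b _ h
      simpa using h
    rw [e1]
    exact tv a _
  refine (mul_le_mul_of_nonneg_left h3 (by positivity)).trans ?_
  have hab : (0 : ℝ) < ((a + b : ℕ) : ℝ) := by exact_mod_cast hN
  have ha' : ((a + b : ℕ) : ℝ) / 2 ≤ (a : ℝ) + 1 := by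
    rw [div_le_iff₀ (by norm_num)]
    have : ((a + b : ℕ) : ℝ) ≤ ((2 * (a + 1) : ℕ) : ℝ) := by exact_mod_cast ha
    push_cast at this ⊢
    linarith
  have hb' : ((a + b : ℕ) : ℝ) / 2 ≤ (b : ℝ) + 1 := by
    rw [div_le_iff₀ (by norm_num)]
    have : ((a + b : ℕ) : ℝ) ≤ ((2 * (b + 1) : ℕ) : ℝ) := by exact_mod_cast hb
    push_cast at this ⊢
    linarith
  have hsa := Real.sqrt_le_sqrt ha'
  have hsb := Real.sqrt_le_sqrt hb'
  set c := Real.sqrt (((a + b : ℕ) : ℝ) / 2) with hc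
  have hc0 : 0 < c := Real.sqrt_pos.2 (by positivity)
  have hc2 : c * c = ((a + b : ℕ) : ℝ) / 2 := Real.mul_self_sqrt (by positivity)
  have hprod : c * c ≤ Real.sqrt (b + 1) * Real.sqrt (a + 1) :=
    mul_le_mul hsb hsa hc0.le (Real.sqrt_nonneg _)
  have hpos : 0 < Real.sqrt ((b : ℝ) + 1) * Real.sqrt (a + 1) := lt_of_lt_of_le (by positivity) hprod
  rw [div_mul_div_comm, div_le_div_iff₀ hpos hab]
  linarith

end Pool.Agent.V11328.W
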