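import Pool.Agent.V11328.W.Prob

/-! The probability that the random graph is good. -/

open Finset

namespace Pool.Agent.V11328.W

open Pool.Agent.V11328

/-- There is an antichain larger than every layer by the factor `1 + ε`. -/
def Good {n : ℕ} (ε : ℝ) (G : SimpleGraph (Fin n)) : Prop :=
  ∃ F : Finset (Finset (Fin n)), F ⊆ ind G ∧
    IsAntichain (fun A B : Finset (Fin n) => A ⊆ B) (F : Set (Finset (Fin n))) ∧
    ∀ r : ℤ, (1 + ε) * (#((ind G).filter fun A => (#A : ℤ) = r) : ℝ) < #F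

open Classical in
theorem prob_good : ∃ ε : ℝ, 0 < ε ∧ ∃ n0 : ℕ, ∀ n : ℕ, n0 ≤ n →
    (1 / 24576 : ℝ) ≤ ∑ G : SimpleGraph (Fin n), if Good ε G then gw (1 / 2 / (n : ℝ)) G else 0 := by
  obtain ⟨ε, hε, n0, hdet⟩ := det (K := 49152) (κ := 1 / 12288) (by norm_num) (by norm_num)
  refine ⟨ε, hε, max n0 6, fun n hn => ?_⟩
  have hn0 : n0 ≤ n := le_trans (le_max_left _ _) hn
  have hn6 : 6 ≤ n := le_trans (le_max_right _ _) hn
  have h6 : (6 : ℝ) ≤ n := by exact_mod_cast hn6
  have hnp : (0 : ℝ) < n := by linarith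
  have hp0 : (0 : ℝ) ≤ 1 / 2 / (n : ℝ) := by positivity
  have hp1 : (1 / 2 / (n : ℝ)) ≤ 1 := by
    rw [div_le_one hnp]; linarith
  have h1 := exp_RR (n := n) (by omega)
  have h2 := exp_ZZ (n := n) hn6
  have h3 := sum_gw (V := Fin n) (1 / 2 / (n : ℝ))
  have hpt : ∀ G : SimpleGraph (Fin n),
      gw (1 / 2 / (n : ℝ)) G * #(ZZ G) / n - 1 / 12288 * gw (1 / 2 / (n : ℝ)) G
        - gw (1 / 2 / (n : ℝ)) G * #(RR G) / (49152 * n) ≤
      if Good ε G then gw (1 / 2 / (n : ℝ)) G else 0 := by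
    intro G
    have hg : 0 ≤ gw (1 / 2 / (n : ℝ)) G := gw_nonneg hp0 hp1 G
    have hz : (#(ZZ G) : ℝ) ≤ n := by
      have : #(ZZ G) ≤ Fintype.card (Fin n) := card_le_univ _
      rw [Fintype.card_fin] at this
      exact_mod_cast this
    have hz0 : (0 : ℝ) ≤ #(ZZ G) := by positivity
    have hr0 : (0 : ℝ) ≤ #(RR G) := by positivity
    have key : ∀ x : ℝ, (#(ZZ G) : ℝ) / n - 1 / 12288 - (#(RR G) : ℝ) / (49152 * n) ≤ x →
        gw (1 / 2 / (n : ℝ)) G * #(ZZ G) / n - 1 / 12288 * gw (1 / 2 / (n : ℝ)) G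
        - gw (1 / 2 / (n : ℝ)) G * #(RR G) / (49152 * n) ≤ gw (1 / 2 / (n : ℝ)) G * x := by
      intro x hx
      calc _ = gw (1 / 2 / (n : ℝ)) G *
            ((#(ZZ G) : ℝ) / n - 1 / 12288 - (#(RR G) : ℝ) / (49152 * n)) := by ring
        _ ≤ _ := mul_le_mul_of_nonneg_left hx hg
    have a1 : 0 ≤ (#(RR G) : ℝ) / (49152 * n) := by positivity
    have a2 : (#(ZZ G) : ℝ) / n ≤ 1 := by
      rw [div_le_one hnp]; exact hz
    by_cases hG : Good ε G
    · rw [if_pos hG]
      have := key 1 (by linarith)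
      linarith
    · rw [if_neg hG]
      have := key 0 ?_
      · linarith
      by_contra hc
      push Not at hc
      apply hG
      apply hdet n hn0 G
      · by_contra hR
        push Not at hR
        have : 1 ≤ (#(RR G) : ℝ) / (49152 * n) := by
          rw [le_div_iff₀ (by positivity)]
          linarith
        linarith
      · by_contra hZ
        push Not at hZ
        have : (#(ZZ G) : ℝ) / n ≤ 1 / 12288 := by
          rw [div_le_iff₀ hnp]
          exact hZ.le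
        linarith
  refine le_trans ?_ (Finset.sum_le_sum fun G _ => hpt G)
  rw [Finset.sum_sub_distrib, Finset.sum_sub_distrib, ← Finset.mul_sum, h3, ← Finset.sum_div,
    ← Finset.sum_div]
  have b1 : (1 : ℝ) / 6144 ≤ (∑ G : SimpleGraph (Fin n), gw (1 / 2 / (n : ℝ)) G * #(ZZ G)) / n := by
    rw [le_div_iff₀ hnp]
    linarith
  have b2 : (∑ G : SimpleGraph (Fin n), gw (1 / 2 / (n : ℝ)) G * #(RR G)) / (49152 * n) ≤
      1 / 24576 := by
    rw [div_le_iff₀ (by positivity)]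
    linarith
  linarith

end Pool.Agent.V11328.W
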