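import Pool.Agent.V11328.W.Ex

/-! The analytic comparison between the layers and the modified levels. -/

open Finset

namespace Pool.Agent.V11328.W

/-- First absolute moment. -/
lemma ex_abs {θ : ℝ} (h0 : 0 ≤ θ) (h1 : θ ≤ 1) (N : ℕ) {c : ℝ} (hc : 0 < c) :
    ex θ N (fun y => |(y : ℝ) - N * θ|) ≤ N * (θ * (1 - θ)) / (2 * c) + c / 2 := by
  have h2 : ∀ y : ℤ, |(y : ℝ) - N * θ| ≤ (1 / (2 * c)) * ((y : ℝ) - N * θ) ^ 2 + c / 2 := by
    intro y
    rw [← sq_abs ((y : ℝ) - N * θ), div_mul_eq_mul_div, one_mul, div_add_div _ _ (by positivity)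
      (by norm_num), le_div_iff₀ (by positivity)]
    nlinarith [sq_nonneg (|(y : ℝ) - N * θ| - c)]
  refine (ex_mono h0 h1 N h2).trans ?_
  rw [ex_add, ex_smul, ex_const, ex_sq]
  apply le_of_eq
  ring

lemma ex_abs_half (j : ℕ) : ex (1 / 2) j (fun i => |(i : ℝ) - j / 2|) ≤ Real.sqrt j / 2 := by
  rcases Nat.eq_zero_or_pos j with hj | hj
  · subst hj
    rw [ex_zero]
    simp
  have hs : 0 < Real.sqrt j := Real.sqrt_pos.2 (by exact_mod_cast hj)
  have hs2 : Real.sqrt j * Real.sqrt j = j := Real.mul_self_sqrt (Nat.cast_nonneg j)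
  have h := ex_abs (θ := 1 / 2) (by norm_num) (by norm_num) j (c := Real.sqrt j / 2) (by positivity)
  have e : (fun i : ℤ => |(i : ℝ) - j / 2|) = fun i : ℤ => |(i : ℝ) - j * (1 / 2)| := by
    funext i; congr 1; ring
  rw [e]
  refine h.trans (le_of_eq ?_)
  field_simp
  nlinarith

variable {ι : Type*} (B : Finset ι) (sz : ι → ℤ)

/-- Law of a sum of an arbitrary integer variable and a symmetric binomial one (unnormalised). -/
noncomputable def HH (N : ℕ) (y : ℤ) : ℝ := ∑ i ∈ B, bb (1 / 2) N (y - sz i)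

variable {B sz}

lemma HH_nonneg (N : ℕ) (y : ℤ) : 0 ≤ HH B sz N y :=
  Finset.sum_nonneg fun i _ => bb_nonneg (by norm_num) (by norm_num) _ _

lemma bb_le_one (N : ℕ) (y : ℤ) : bb (1 / 2) N y ≤ 1 := by
  have h := sum_le_ex (θ := 1 / 2) (by norm_num) (by norm_num) N (ψ := fun _ => 1)
    (fun _ => by norm_num) {y}
  rw [ex_const] at h
  simpa using h

lemma HH_le (N : ℕ) (y : ℤ) : HH B sz N y ≤ #B / Real.sqrt (N + 1) := by
  refine (Finset.sum_le_card_nsmul _ _ _ (fun i _ => bb_sup N (y - sz i))).trans (le_of_eq ?_)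
  rw [nsmul_eq_mul]; ring

lemma HH_le_card (N : ℕ) (y : ℤ) : HH B sz N y ≤ #B := by
  refine (Finset.sum_le_card_nsmul _ _ _ (fun i _ => bb_le_one N (y - sz i))).trans (le_of_eq ?_)
  rw [nsmul_eq_mul]; ring

lemma HH_lip {N : ℕ} (hN : 1 ≤ N) (y : ℤ) : |HH B sz N (y + 1) - HH B sz N y| ≤ 4 * #B / N := by
  unfold HH
  rw [← Finset.sum_sub_distrib]
  refine (Finset.abs_sum_le_sum_abs _ _).trans ?_
  have h : ∀ i ∈ B, |bb (1 / 2) N (y + 1 - sz i) - bb (1 / 2) N (y - sz i)| ≤ 4 / N := by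
    intro i _
    have := bb_lip hN (y - sz i)
    unfold df at this
    have e : y - sz i + 1 = y + 1 - sz i := by ring
    rwa [e] at this
  refine (Finset.sum_le_card_nsmul _ _ _ h).trans (le_of_eq ?_)
  rw [nsmul_eq_mul]; ring

lemma HH_lip' {N : ℕ} (hN : 1 ≤ N) (x y : ℤ) :
    |HH B sz N x - HH B sz N y| ≤ 4 * #B / N * |(x : ℝ) - y| := by
  have key : ∀ (k : ℕ) (y : ℤ), |HH B sz N (y + k) - HH B sz N y| ≤ 4 * #B / N * k := by
    intro k
    induction k with
    | zero => intro y; simp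
    | succ k ih =>
      intro y
      have h1 := ih y
      have h2 := HH_lip (B := B) (sz := sz) hN (y + k)
      have e : y + ((k + 1 : ℕ) : ℤ) = y + k + 1 := by push_cast; ring
      rw [e]
      have h3 := abs_add_le (HH B sz N (y + k + 1) - HH B sz N (y + k)) (HH B sz N (y + k) - HH B sz N y)
      rw [sub_add_sub_cancel] at h3
      push_cast
      linarith
  rcases le_total x y with h | h
  · obtain ⟨k, hk⟩ := Int.eq_ofNat_of_zero_le (sub_nonneg.2 h)
    have e : y = x + k := by linarith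
    rw [e, abs_sub_comm]
    have h1 := key k x
    have h2 : |(x : ℝ) - ((x + k : ℤ) : ℝ)| = k := by
      push_cast
      rw [sub_add_cancel_left, abs_neg, Nat.abs_cast]
    rw [h2]
    exact h1
  · obtain ⟨k, hk⟩ := Int.eq_ofNat_of_zero_le (sub_nonneg.2 h)
    have e : x = y + k := by linarith
    rw [e]
    have h1 := key k y
    have h2 : |((y + k : ℤ) : ℝ) - (y : ℝ)| = k := by
      push_cast
      rw [add_sub_cancel_left, Nat.abs_cast]
    rw [h2]
    exact h1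

lemma HH_add (N j : ℕ) (y : ℤ) : HH B sz (N + j) y = ex (1 / 2) j (fun i => HH B sz N (y - i)) := by
  unfold HH
  rw [ex_sum]
  refine Finset.sum_congr rfl fun i _ => ?_
  rw [bb_add]
  congr 1
  funext k
  congr 1
  ring

lemma HH_sum (N : ℕ) (F : Finset ℤ) : ∑ y ∈ F, HH B sz N y ≤ #B := by
  unfold HH
  rw [Finset.sum_comm]
  have h : ∀ i ∈ B, ∑ y ∈ F, bb (1 / 2) N (y - sz i) ≤ 1 := by
    intro i _
    have h1 := sum_le_ex (θ := 1 / 2) (by norm_num) (by norm_num) N (ψ := fun _ => 1)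
      (fun _ => by norm_num) (F.map (Equiv.subRight (sz i)).toEmbedding)
    rw [ex_const, Finset.sum_map] at h1
    simpa using h1
  refine (Finset.sum_le_card_nsmul _ _ _ h).trans (le_of_eq ?_)
  rw [nsmul_eq_mul, mul_one]

/-- Comparison of different numbers of coins. -/
lemma HH_cmp {N : ℕ} (hN : 1 ≤ N) (j : ℕ) (x y : ℤ) :
    |HH B sz (N + j) x - HH B sz N y| ≤
      4 * #B / N * (|(x : ℝ) - y - j / 2| + Real.sqrt j / 2) := by
  have h0 : (0 : ℝ) ≤ 1 / 2 := by norm_num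
  have h1 : (1 : ℝ) / 2 ≤ 1 := by norm_num
  have e : HH B sz (N + j) x - HH B sz N y =
      ex (1 / 2) j (fun i => HH B sz N (x - i) - HH B sz N y) := by
    rw [ex_sub, ex_const, HH_add]
  rw [e]
  refine (abs_ex_le h0 h1 j _).trans ?_
  have h2 : ∀ i : ℤ, |HH B sz N (x - i) - HH B sz N y| ≤
      4 * #B / N * (|(x : ℝ) - y - j / 2| + |(i : ℝ) - j / 2|) := by
    intro i
    refine (HH_lip' hN _ _).trans (mul_le_mul_of_nonneg_left ?_ (by positivity))
    push_cast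
    have h3 : (x : ℝ) - i - y = ((x : ℝ) - y - j / 2) - ((i : ℝ) - j / 2) := by ring
    rw [h3]
    exact abs_sub _ _
  refine (ex_mono h0 h1 j h2).trans ?_
  rw [ex_smul, ex_add, ex_const]
  exact mul_le_mul_of_nonneg_left (add_le_add le_rfl (ex_abs_half j)) (by positivity)

/-! ### Lower bound for the smoothing kernel -/

lemma exists_mode : ∀ M : ℕ, 100 ≤ M → ∃ s : ℕ, |(s : ℝ) - M / 9| ≤ Real.sqrt M ∧
    3 / (10 * Real.sqrt M) ≤ bb (1 / 9) M s := by
  intro M hM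
  have hM' : (100 : ℝ) ≤ M := by exact_mod_cast hM
  have hs : 10 ≤ Real.sqrt M := by
    rw [show (10 : ℝ) = Real.sqrt 100 by rw [show (100 : ℝ) = 10 ^ 2 by norm_num]; simp]
    exact Real.sqrt_le_sqrt hM'
  have hs2 : Real.sqrt M * Real.sqrt M = M := Real.mul_self_sqrt (Nat.cast_nonneg M)
  by_contra hcon
  push Not at hcon
  set W := (range (M + 1)).filter (fun s : ℕ => |(s : ℝ) - M / 9| ≤ Real.sqrt M) with hW
  have hsum : ∑ i ∈ range (M + 1), bb (1 / 9) M (i : ℤ) = 1 := by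
    have := ex_eq_sum (θ := 1 / 9) M (fun _ => 1)
    rw [ex_const] at this
    simpa using this.symm
  have hcheb : 1 - 8 / 81 ≤ ∑ i ∈ W, bb (1 / 9) M (i : ℤ) := by
    have h1 := ex_eq_sum (θ := 1 / 9) M (fun y => ((y : ℝ) - M * (1 / 9)) ^ 2)
    rw [ex_sq] at h1
    have h2 : ∑ i ∈ range (M + 1), bb (1 / 9) M (i : ℤ) ≤ ∑ i ∈ W, bb (1 / 9) M (i : ℤ) +
        ∑ i ∈ range (M + 1), bb (1 / 9) M (i : ℤ) * ((((i : ℤ) : ℝ) - M * (1 / 9)) ^ 2 / M) := by
      rw [hW, Finset.sum_filter, ← Finset.sum_add_distrib]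
      refine Finset.sum_le_sum fun i _ => ?_
      have hb := bb_nonneg (θ := 1 / 9) (by norm_num) (by norm_num) M (i : ℤ)
      split_ifs with h
      · have : 0 ≤ bb (1 / 9) M (i : ℤ) * ((((i : ℤ) : ℝ) - M * (1 / 9)) ^ 2 / M) := by positivity
        linarith
      · push Not at h
        rw [zero_add]
        have h3 : 1 ≤ (((i : ℤ) : ℝ) - M * (1 / 9)) ^ 2 / M := by
          rw [le_div_iff₀ (by linarith), one_mul]
          have h4 : (((i : ℤ) : ℝ) - M * (1 / 9)) ^ 2 = |(i : ℝ) - M / 9| ^ 2 := by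
            rw [sq_abs]; push_cast; ring
          rw [h4]
          nlinarith
        nlinarith
    have h3 : ∑ i ∈ range (M + 1), bb (1 / 9) M (i : ℤ) * ((((i : ℤ) : ℝ) - M * (1 / 9)) ^ 2 / M) =
        8 / 81 := by
      have e : ∀ i ∈ range (M + 1), bb (1 / 9) M (i : ℤ) * ((((i : ℤ) : ℝ) - M * (1 / 9)) ^ 2 / M) =
          (1 / M) * (bb (1 / 9) M (i : ℤ) * (((i : ℤ) : ℝ) - M * (1 / 9)) ^ 2) := by
        intro i _; ring
      rw [Finset.sum_congr rfl e, ← Finset.mul_sum, ← h1]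
      field_simp
      ring
    rw [hsum, h3] at h2
    linarith
  have hcard : (#W : ℝ) ≤ 2 * Real.sqrt M + 1 := by
    have hsub : W ⊆ Finset.Icc (⌈(M : ℝ) / 9 - Real.sqrt M⌉₊) (⌊(M : ℝ) / 9 + Real.sqrt M⌋₊) := by
      intro s hs
      rw [hW, mem_filter] at hs
      have h1 := abs_le.1 hs.2
      rw [mem_Icc]
      exact ⟨Nat.ceil_le.2 (by linarith [h1.1]), Nat.le_floor (by linarith [h1.2])⟩
    have h1 := card_le_card hsub
    rw [Nat.card_Icc] at h1
    have h2 : (#W : ℝ) ≤ ((⌊(M : ℝ) / 9 + Real.sqrt M⌋₊ + 1 - ⌈(M : ℝ) / 9 - Real.sqrt M⌉₊ : ℕ) : ℝ) := by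
      exact_mod_cast h1
    refine h2.trans ?_
    have h3 : (⌊(M : ℝ) / 9 + Real.sqrt M⌋₊ : ℝ) ≤ (M : ℝ) / 9 + Real.sqrt M :=
      Nat.floor_le (by positivity)
    have h4 : (M : ℝ) / 9 - Real.sqrt M ≤ (⌈(M : ℝ) / 9 - Real.sqrt M⌉₊ : ℝ) := Nat.le_ceil _
    by_cases hle : ⌈(M : ℝ) / 9 - Real.sqrt M⌉₊ ≤ ⌊(M : ℝ) / 9 + Real.sqrt M⌋₊ + 1
    · rw [Nat.cast_sub hle]
      push_cast
      linarith
    · rw [Nat.sub_eq_zero_of_le (by omega)]
      push_cast
      positivity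
  have hup : ∑ i ∈ W, bb (1 / 9) M (i : ℤ) ≤ #W * (3 / (10 * Real.sqrt M)) := by
    rw [← nsmul_eq_mul]
    apply Finset.sum_le_card_nsmul
    intro s hs
    rw [hW, mem_filter] at hs
    exact (hcon s hs.2).le
  have h5 : (#W : ℝ) * (3 / (10 * Real.sqrt M)) ≤ (3 * Real.sqrt M) * (3 / (10 * Real.sqrt M)) :=
    mul_le_mul_of_nonneg_right (by linarith) (by positivity)
  have h6 : (3 * Real.sqrt M) * (3 / (10 * Real.sqrt M)) = 9 / 10 := by
    field_simp
    norm_num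
  linarith

/-- Lower bound for the kernel on a long window. -/
lemma window {L : ℝ} (hL : 0 < L) : ∃ η : ℝ, 0 < η ∧ ∃ M0 : ℕ, ∀ M : ℕ, M0 ≤ M →
    ∃ s1 : ℕ, ∀ s : ℕ, s1 ≤ s → s ≤ s1 + 2 * ⌈L * Real.sqrt M⌉₊ →
      η / Real.sqrt M ≤ bb (1 / 9) M s := by
  set K : ℝ := 11 * (2 * L + 4) with hK
  have hK0 : 0 < K := by positivity
  refine ⟨3 / 10 * Real.exp (-(2 * K * (2 * L + 2))), by positivity,
    ⌈(2 * K) ^ 2⌉₊ + 100, fun M hM => ?_⟩
  have hM1 : 100 ≤ M := by omega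
  have hM' : (100 : ℝ) ≤ M := by exact_mod_cast hM1
  have hs : 10 ≤ Real.sqrt M := by
    rw [show (10 : ℝ) = Real.sqrt 100 by rw [show (100 : ℝ) = 10 ^ 2 by norm_num]; simp]
    exact Real.sqrt_le_sqrt hM'
  have hs2 : Real.sqrt M * Real.sqrt M = M := Real.mul_self_sqrt (Nat.cast_nonneg M)
  have hKs : 2 * K ≤ Real.sqrt M := by
    apply Real.le_sqrt_of_sq_le
    have h1 : (2 * K) ^ 2 ≤ (⌈(2 * K) ^ 2⌉₊ : ℝ) := Nat.le_ceil _
    have h2 : ((⌈(2 * K) ^ 2⌉₊ + 100 : ℕ) : ℝ) ≤ M := by exact_mod_cast hM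
    push_cast at h2
    linarith
  obtain ⟨s1, hs1, hb1⟩ := exists_mode M hM1
  refine ⟨s1, ?_⟩
  set D := ⌈L * Real.sqrt M⌉₊ with hD
  have hDle : (D : ℝ) ≤ L * Real.sqrt M + 1 := (Nat.ceil_lt_add_one (by positivity)).le
  set q : ℝ := K / Real.sqrt M with hq
  have hq0 : 0 ≤ q := by positivity
  have hq1 : q ≤ 1 / 2 := by
    rw [hq, div_le_iff₀ (by linarith)]
    linarith
  have hs1' := abs_le.1 hs1
  -- one step
  have hstep : ∀ s : ℕ, s1 ≤ s → s < s1 + 2 * D → (1 - q) * bb (1 / 9) M s ≤ bb (1 / 9) M ((s : ℤ) + 1) := by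
    intro s h1 h2
    have hr := bb_ratio (θ := 1 / 9) M s
    have hb := bb_nonneg (θ := 1 / 9) (by norm_num) (by norm_num) M (s : ℤ)
    have hsr : (s : ℝ) + 1 ≤ M / 9 + (2 * L + 4) * Real.sqrt M := by
      have h3 : (s : ℝ) + 1 ≤ s1 + 2 * D := by exact_mod_cast h2
      nlinarith [hs1'.2]
    have hpos : (0 : ℝ) < (s : ℝ) + 1 := by positivity
    push_cast at hr
    have hr2 : 8 * ((s : ℝ) + 1) * bb (1 / 9) M ((s : ℤ) + 1) = ((M : ℝ) - s) * bb (1 / 9) M s := by
      linarith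
    have hkey : 8 * ((s : ℝ) + 1) * (1 - q) ≤ (M : ℝ) - s := by
      -- 8(s+1) (1-q) ≤ M - s
      have h4 : 8 * ((s : ℝ) + 1) * (1 - q) ≤
          8 * (M / 9 + (2 * L + 4) * Real.sqrt M) * (1 - q) := by
        apply mul_le_mul_of_nonneg_right _ (by linarith)
        linarith
      have h5 : q * M = K * Real.sqrt M := by
        have h50 : q * M = K / Real.sqrt M * (Real.sqrt M * Real.sqrt M) := by rw [hs2]
        have h51 : Real.sqrt M ≠ 0 := by linarith
        rw [h50, ← mul_assoc, div_mul_cancel₀ _ h51]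
      have h6 : 8 * (M / 9 + (2 * L + 4) * Real.sqrt M) * (1 - q) ≤
          8 * M / 9 - (2 * L + 4) * Real.sqrt M := by
        have h7 : 0 ≤ q * ((2 * L + 4) * Real.sqrt M) := by positivity
        have h8 : 8 / 9 * (K * Real.sqrt M) ≥ 9 * ((2 * L + 4) * Real.sqrt M) := by
          rw [hK]
          have : 0 ≤ (2 * L + 4) * Real.sqrt M := by positivity
          nlinarith
        nlinarith
      linarith
    have h9 : 8 * ((s : ℝ) + 1) * ((1 - q) * bb (1 / 9) M s) ≤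
        8 * ((s : ℝ) + 1) * bb (1 / 9) M ((s : ℤ) + 1) := by
      rw [hr2, ← mul_assoc]
      exact mul_le_mul_of_nonneg_right hkey hb
    exact le_of_mul_le_mul_left h9 (by positivity)
  have hiter : ∀ k : ℕ, k ≤ 2 * D → (1 - q) ^ k * bb (1 / 9) M s1 ≤ bb (1 / 9) M ((s1 + k : ℕ) : ℤ) := by
    intro k
    induction k with
    | zero => intro _; simp
    | succ k ih =>
      intro hk
      have h1 := ih (by omega)
      have h2 := hstep (s1 + k) (by omega) (by omega)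
      have e : (((s1 + (k + 1) : ℕ)) : ℤ) = ((s1 + k : ℕ) : ℤ) + 1 := by push_cast; ring
      rw [e]
      refine le_trans ?_ h2
      rw [pow_succ]
      have := mul_le_mul_of_nonneg_left h1 (show (0 : ℝ) ≤ 1 - q by linarith)
      linarith
  intro s h1 h2
  obtain ⟨k, rfl⟩ := Nat.exists_eq_add_of_le h1
  have hk : k ≤ 2 * D := by omega
  refine le_trans ?_ (hiter k hk)
  have hexp : Real.exp (-(2 * q)) ≤ 1 - q := by
    have h3 : 1 + 2 * q ≤ Real.exp (2 * q) := by linarith [Real.add_one_le_exp (2 * q)]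
    rw [Real.exp_neg, inv_le_comm₀ (Real.exp_pos _) (by linarith)]
    refine le_trans ?_ h3
    rw [inv_le_iff_one_le_mul₀ (by linarith)]
    nlinarith
  have hpow : Real.exp (-(2 * K * (2 * L + 2))) ≤ (1 - q) ^ k := by
    calc Real.exp (-(2 * K * (2 * L + 2))) ≤ Real.exp (-(2 * q) * k) := by
          rw [Real.exp_le_exp]
          have hkr : (k : ℝ) ≤ (2 * L + 2) * Real.sqrt M := by
            have : (k : ℝ) ≤ 2 * D := by exact_mod_cast hk
            nlinarith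
          have h5 : q * k ≤ K * (2 * L + 2) := by
            calc q * k ≤ q * ((2 * L + 2) * Real.sqrt M) := mul_le_mul_of_nonneg_left hkr hq0
              _ = K * (2 * L + 2) := by
                  rw [hq]; field_simp
          linarith
      _ = Real.exp (-(2 * q)) ^ k := by
          rw [← Real.exp_nat_mul]; congr 1; ring
      _ ≤ (1 - q) ^ k := pow_le_pow_left₀ (Real.exp_pos _).le hexp _
  calc 3 / 10 * Real.exp (-(2 * K * (2 * L + 2))) / Real.sqrt M
      = Real.exp (-(2 * K * (2 * L + 2))) * (3 / (10 * Real.sqrt M)) := by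
        field_simp
    _ ≤ (1 - q) ^ k * bb (1 / 9) M s1 :=
        mul_le_mul hpow hb1 (by positivity) (by
          have : 0 ≤ 1 - q := by linarith
          positivity)

/-- Normalised size of a layer. -/
noncomputable def LR (B : Finset ι) (sz : ι → ℤ) (M : ℕ) (r : ℤ) : ℝ :=
  ex (1 / 9) M (fun s => HH B sz (3 * (M - s.toNat)) (r - s))

/-- Normalised size of a modified level. -/
noncomputable def FR (B : Finset ι) (sz : ι → ℤ) (M : ℕ) (t : ℤ) : ℝ :=
  ex (1 / 9) M (fun s => HH B sz (3 * (M - s.toNat)) (t - s - s / 2))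

/-- Pointwise comparison with the reference law. -/
lemma cmp_point {M : ℕ} (hM : 9 ≤ M) {κ : ℝ} (hκ : 0 < κ) {s : ℤ} (hs0 : 0 ≤ s) (hsM : s ≤ M)
    (t : ℤ) :
    |HH B sz (3 * (M - s.toNat)) (t - s - s / 2) -
      HH B sz (3 * (M - M / 9)) (t - ((M / 9 : ℕ) : ℤ) - ((M / 9 : ℕ) : ℤ) / 2)| ≤
      #B * (4 / (3 / 2 * M) * (1 + 3 / (8 * κ) + κ * |(s : ℝ) - ((M / 9 : ℕ) : ℝ)|) +
        (9 * (s : ℝ) - M) ^ 2 / (3 * (M : ℝ) ^ 2)) := by
  obtain ⟨a, rfl⟩ := Int.eq_ofNat_of_zero_le hs0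
  rw [Int.toNat_natCast]
  have haM : a ≤ M := by exact_mod_cast hsM
  set b := M / 9 with hb
  have hbM : 9 * b ≤ M := Nat.mul_div_le M 9
  have hM0 : (0 : ℝ) < M := by exact_mod_cast (by omega : 0 < M)
  have hB0 : (0 : ℝ) ≤ #B := Nat.cast_nonneg _
  by_cases hcase : M < 2 * a
  · -- trivial bound
    have h1 : |HH B sz (3 * (M - a)) (t - a - (a : ℤ) / 2) -
        HH B sz (3 * (M - b)) (t - (b : ℤ) - (b : ℤ) / 2)| ≤ #B := by
      rw [abs_le]
      constructor <;>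
        linarith [HH_nonneg (B := B) (sz := sz) (3 * (M - a)) (t - a - (a : ℤ) / 2),
          HH_nonneg (B := B) (sz := sz) (3 * (M - b)) (t - (b : ℤ) - (b : ℤ) / 2),
          HH_le_card (B := B) (sz := sz) (3 * (M - a)) (t - a - (a : ℤ) / 2),
          HH_le_card (B := B) (sz := sz) (3 * (M - b)) (t - (b : ℤ) - (b : ℤ) / 2)]
    refine h1.trans ?_
    have h2 : (1 : ℝ) ≤ (9 * ((a : ℤ) : ℝ) - M) ^ 2 / (3 * (M : ℝ) ^ 2) := by
      rw [le_div_iff₀ (by positivity)]
      have h3 : (M : ℝ) < 2 * a := by exact_mod_cast hcase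
      push_cast
      nlinarith
    have h4 : 0 ≤ 4 / (3 / 2 * (M : ℝ)) * (1 + 3 / (8 * κ) + κ * |((a : ℤ) : ℝ) - (b : ℝ)|) := by
      positivity
    nlinarith
  · push Not at hcase
    have h5 : |HH B sz (3 * (M - a)) (t - a - (a : ℤ) / 2) -
        HH B sz (3 * (M - b)) (t - (b : ℤ) - (b : ℤ) / 2)| ≤
        4 * #B / (3 / 2 * M) * (1 / 2 + Real.sqrt (3 * |(a : ℝ) - b|) / 2) := by
      have key : ∀ u v : ℕ, u ≤ v → 2 * v ≤ M →
          |HH B sz (3 * (M - u)) (t - u - (u : ℤ) / 2) -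
          HH B sz (3 * (M - v)) (t - (v : ℤ) - (v : ℤ) / 2)| ≤
          4 * #B / (3 / 2 * M) * (1 / 2 + Real.sqrt (3 * |(u : ℝ) - v|) / 2) := by
        intro u v huv hvM
        have e : 3 * (M - u) = 3 * (M - v) + 3 * (v - u) := by omega
        have hN : 1 ≤ 3 * (M - v) := by omega
        rw [e]
        refine (HH_cmp hN _ _ _).trans ?_
        have h6 : (3 / 2 * M : ℝ) ≤ ((3 * (M - v) : ℕ) : ℝ) := by
          have h7 : (2 * v : ℝ) ≤ M := by exact_mod_cast hvM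
          rw [Nat.cast_mul, Nat.cast_sub (by omega)]
          push_cast
          linarith
        have h8 : (4 * (#B : ℝ)) / ((3 * (M - v) : ℕ) : ℝ) ≤ 4 * #B / (3 / 2 * M) :=
          div_le_div_of_nonneg_left (by positivity) (by positivity) h6
        refine mul_le_mul h8 (add_le_add ?_ ?_) (by positivity) (by positivity)
        · have hu : ((u : ℤ) / 2 : ℤ) = ((u / 2 : ℕ) : ℤ) := by push_cast; rfl
          have hv : ((v : ℤ) / 2 : ℤ) = ((v / 2 : ℕ) : ℤ) := by push_cast; rfl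
          rw [hu, hv]
          have h9 : ((u / 2 : ℕ) : ℝ) ≤ (u : ℝ) / 2 := by
            have := Nat.cast_div_le (α := ℝ) (m := u) (n := 2)
            exact_mod_cast this
          have h10 : (u : ℝ) / 2 - 1 / 2 ≤ ((u / 2 : ℕ) : ℝ) := by
            have : u ≤ 2 * (u / 2) + 1 := by omega
            have h : (u : ℝ) ≤ 2 * ((u / 2 : ℕ) : ℝ) + 1 := by exact_mod_cast this
            linarith
          have h11 : ((v / 2 : ℕ) : ℝ) ≤ (v : ℝ) / 2 := by
            have := Nat.cast_div_le (α := ℝ) (m := v) (n := 2)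
            exact_mod_cast this
          have h12 : (v : ℝ) / 2 - 1 / 2 ≤ ((v / 2 : ℕ) : ℝ) := by
            have : v ≤ 2 * (v / 2) + 1 := by omega
            have h : (v : ℝ) ≤ 2 * ((v / 2 : ℕ) : ℝ) + 1 := by exact_mod_cast this
            linarith
          rw [Int.cast_sub, Int.cast_sub, Int.cast_sub, Int.cast_sub, Int.cast_natCast,
            Int.cast_natCast, Int.cast_natCast, Int.cast_natCast, Nat.cast_mul, Nat.cast_sub huv]
          push_cast at h9 h10 h11 h12 ⊢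
          rw [abs_le]
          constructor <;> linarith
        · apply le_of_eq
          congr 2
          rw [Nat.cast_mul, Nat.cast_sub huv, abs_sub_comm, abs_of_nonneg]
          · push_cast; ring
          · have : (u : ℝ) ≤ v := by exact_mod_cast huv
            linarith
      rcases le_total a b with h | h
      · exact key a b h (by omega)
      · rw [abs_sub_comm, abs_sub_comm (a : ℝ)]
        exact key b a h hcase
    refine h5.trans ?_
    push_cast
    set x : ℝ := |(a : ℝ) - b| with hx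
    have hx0 : 0 ≤ x := abs_nonneg _
    have h6 : Real.sqrt (3 * x) / 2 ≤ 3 / (8 * κ) + κ * x := by
      have h7 : Real.sqrt (3 * x) * Real.sqrt (3 * x) = 3 * x := Real.mul_self_sqrt (by positivity)
      set y := Real.sqrt (3 * x) with hy
      have h8 : 3 / (8 * κ) + κ * x - y / 2 = (3 / (8 * κ)) * (1 - 2 * κ * y / 3) ^ 2 +
          κ * x / 2 := by
        have : x = y * y / 3 := by linarith
        rw [this]
        field_simp
        ring
      have h9 : 0 ≤ (3 / (8 * κ)) * (1 - 2 * κ * y / 3) ^ 2 + κ * x / 2 := by positivity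
      linarith
    have h9 : 0 ≤ (9 * (a : ℝ) - M) ^ 2 / (3 * (M : ℝ) ^ 2) := by positivity
    have h10 : 4 * (#B : ℝ) / (3 / 2 * M) * (1 / 2 + Real.sqrt (3 * x) / 2) ≤
        #B * (4 / (3 / 2 * M) * (1 + 3 / (8 * κ) + κ * x)) := by
      have e : 4 * (#B : ℝ) / (3 / 2 * M) * (1 / 2 + Real.sqrt (3 * x) / 2) =
          #B * (4 / (3 / 2 * M) * (1 / 2 + Real.sqrt (3 * x) / 2)) := by ring
      rw [e]
      refine mul_le_mul_of_nonneg_left (mul_le_mul_of_nonneg_left (by linarith) (by positivity)) hB0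
    have h11 : 0 ≤ (#B : ℝ) * ((9 * (a : ℝ) - M) ^ 2 / (3 * (M : ℝ) ^ 2)) := by positivity
    rw [mul_add]
    linarith

/-- The averaged error tends to zero faster than `1 / √M`. -/
lemma err_bound {τ : ℝ} (hτ : 0 < τ) : ∃ κ : ℝ, 0 < κ ∧ ∃ M0 : ℕ, ∀ M : ℕ, M0 ≤ M →
    ex (1 / 9) M (fun s => 4 / (3 / 2 * M) * (1 + 3 / (8 * κ) + κ * |(s : ℝ) - ((M / 9 : ℕ) : ℝ)|) +
        (9 * (s : ℝ) - M) ^ 2 / (3 * (M : ℝ) ^ 2)) ≤ τ / Real.sqrt M := by
  set κ : ℝ := τ / 6 with hκ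
  have hκ0 : 0 < κ := by positivity
  set C : ℝ := 8 / 3 * (1 + 3 / (8 * κ) + κ) + 8 / 3 with hC
  have hC0 : 0 < C := by positivity
  refine ⟨κ, hκ0, ⌈(2 * C / τ) ^ 2⌉₊ + 1, fun M hM => ?_⟩
  have hM1 : 1 ≤ M := by omega
  have hM0 : (0 : ℝ) < M := by exact_mod_cast hM1
  have hs : 0 < Real.sqrt M := Real.sqrt_pos.2 hM0
  have hs2 : Real.sqrt M * Real.sqrt M = M := Real.mul_self_sqrt (Nat.cast_nonneg M)
  have hCs : 2 * C / τ ≤ Real.sqrt M := by
    apply Real.le_sqrt_of_sq_le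
    have h1 : (2 * C / τ) ^ 2 ≤ (⌈(2 * C / τ) ^ 2⌉₊ : ℝ) := Nat.le_ceil _
    have h2 : ((⌈(2 * C / τ) ^ 2⌉₊ + 1 : ℕ) : ℝ) ≤ M := by exact_mod_cast hM
    push_cast at h2
    linarith
  have h0 : (0 : ℝ) ≤ 1 / 9 := by norm_num
  have h1 : (1 : ℝ) / 9 ≤ 1 := by norm_num
  -- first absolute moment
  have habs : ex (1 / 9) M (fun s => |(s : ℝ) - ((M / 9 : ℕ) : ℝ)|) ≤ Real.sqrt M + 1 := by
    have h2 : ∀ s : ℤ, |(s : ℝ) - ((M / 9 : ℕ) : ℝ)| ≤ |(s : ℝ) - M * (1 / 9)| + 1 := by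
      intro s
      have h3 : |(M : ℝ) * (1 / 9) - ((M / 9 : ℕ) : ℝ)| ≤ 1 := by
        have h4 : ((M / 9 : ℕ) : ℝ) ≤ (M : ℝ) / 9 := by
          have := Nat.cast_div_le (α := ℝ) (m := M) (n := 9)
          exact_mod_cast this
        have h5 : (M : ℝ) ≤ 9 * ((M / 9 : ℕ) : ℝ) + 9 := by
          have : M ≤ 9 * (M / 9) + 9 := by omega
          exact_mod_cast this
        rw [abs_le]
        constructor <;> linarith
      have h6 := abs_sub_le (s : ℝ) (M * (1 / 9)) ((M / 9 : ℕ) : ℝ)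
      linarith
    refine (ex_mono h0 h1 M h2).trans ?_
    rw [ex_add, ex_const]
    have h7 := ex_abs h0 h1 M (c := Real.sqrt M) hs
    have h8 : (M : ℝ) * (1 / 9 * (1 - 1 / 9)) / (2 * Real.sqrt M) + Real.sqrt M / 2 ≤ Real.sqrt M := by
      rw [div_add_div _ _ (by positivity) (by norm_num), div_le_iff₀ (by positivity)]
      nlinarith
    linarith
  have hsq : ex (1 / 9) M (fun s => (9 * (s : ℝ) - M) ^ 2 / (3 * (M : ℝ) ^ 2)) = 8 / (3 * M) := by
    have e : (fun s : ℤ => (9 * (s : ℝ) - M) ^ 2 / (3 * (M : ℝ) ^ 2)) =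
        fun s : ℤ => (27 / (M : ℝ) ^ 2) * ((s : ℝ) - M / 9) ^ 2 := by
      funext s
      field_simp
      ring
    rw [e, ex_smul, ex_sq]
    field_simp
    ring
  rw [ex_add, hsq]
  have e : (fun s : ℤ => 4 / (3 / 2 * (M : ℝ)) * (1 + 3 / (8 * κ) + κ * |(s : ℝ) - ((M / 9 : ℕ) : ℝ)|)) =
      fun s : ℤ => 4 / (3 / 2 * (M : ℝ)) * (1 + 3 / (8 * κ)) +
        (4 / (3 / 2 * (M : ℝ)) * κ) * |(s : ℝ) - ((M / 9 : ℕ) : ℝ)| := by
    funext s; ring
  rw [e, ex_add, ex_const, ex_smul]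
  have h9 : 4 / (3 / 2 * (M : ℝ)) * κ * ex (1 / 9) M (fun s => |(s : ℝ) - ((M / 9 : ℕ) : ℝ)|) ≤
      4 / (3 / 2 * (M : ℝ)) * κ * (Real.sqrt M + 1) :=
    mul_le_mul_of_nonneg_left habs (by positivity)
  have h10 : 4 / (3 / 2 * (M : ℝ)) * (1 + 3 / (8 * κ)) +
      4 / (3 / 2 * (M : ℝ)) * κ * (Real.sqrt M + 1) + 8 / (3 * M) =
      (8 / 3 * κ * Real.sqrt M + C) / M := by
    rw [hC]
    field_simp
    ring
  have h11 : (8 / 3 * κ * Real.sqrt M + C) / M ≤ τ / Real.sqrt M := by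
    rw [div_le_div_iff₀ hM0 hs]
    have h12 : C ≤ τ / 2 * Real.sqrt M := by
      rw [div_le_iff₀ hτ] at hCs
      linarith
    have h13 : 8 / 3 * κ = 4 / 9 * τ := by rw [hκ]; ring
    rw [h13]
    have h14 : (4 / 9 * τ * Real.sqrt M + C) ≤ τ * Real.sqrt M := by nlinarith
    have h15 := mul_le_mul_of_nonneg_right h14 hs.le
    have h16 : τ * Real.sqrt M * Real.sqrt M = τ * M := by rw [mul_assoc, hs2]
    linarith
  linarith

/-- The main analytic inequality. -/
theorem main_ineq {c : ℝ} (hc : 0 < c) : ∃ ε : ℝ, 0 < ε ∧ ∃ M0 : ℕ, ∀ M : ℕ, M0 ≤ M →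
    ∀ (α : Type) (B : Finset α) (sz : α → ℤ), B.Nonempty →
      (∃ r : ℤ, c * #B / Real.sqrt M ≤ LR B sz M r) →
      ∃ t : ℤ, ∀ r : ℤ, (1 + ε) * LR B sz M r < FR B sz M t := by
  obtain ⟨η, hη, M1, hwin⟩ := window (L := 4 / c) (by positivity)
  set τ : ℝ := min (c / 2) (min (η / 8) 1) with hτ
  have hτ0 : 0 < τ := by
    rw [hτ]
    exact lt_min (by positivity) (lt_min (by positivity) (by norm_num))
  have hτc : τ ≤ c / 2 := min_le_left _ _
  have hτη : τ ≤ η / 8 := (min_le_right _ _).trans (min_le_left _ _)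
  have hτ1 : τ ≤ 1 := (min_le_right _ _).trans (min_le_right _ _)
  obtain ⟨κ, hκ, M2, herr⟩ := err_bound hτ0
  refine ⟨η / 4, by positivity, max (max M1 M2) 9, fun M hM α B sz hB hr => ?_⟩
  have hM1 : M1 ≤ M := le_trans (le_trans (le_max_left _ _) (le_max_left _ _)) hM
  have hM2 : M2 ≤ M := le_trans (le_trans (le_max_right _ _) (le_max_left _ _)) hM
  have hM9 : 9 ≤ M := le_trans (le_max_right _ _) hM
  have hM0 : (0 : ℝ) < M := by exact_mod_cast (by omega : 0 < M)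
  have hs : 0 < Real.sqrt M := Real.sqrt_pos.2 hM0
  have hs2 : Real.sqrt M * Real.sqrt M = M := Real.mul_self_sqrt (Nat.cast_nonneg M)
  have hq : (0 : ℝ) < #B := by exact_mod_cast card_pos.2 hB
  have h0 : (0 : ℝ) ≤ 1 / 9 := by norm_num
  have h1 : (1 : ℝ) / 9 ≤ 1 := by norm_num
  set q : ℝ := (#B : ℝ) with hqdef
  set b : ℤ := ((M / 9 : ℕ) : ℤ) with hb
  set H : ℤ → ℝ := HH B sz (3 * (M - M / 9)) with hH
  set e : ℝ := q * (τ / Real.sqrt M) with he
  -- comparison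
  have hcmp : ∀ g : ℤ → ℤ, |ex (1 / 9) M (fun s => HH B sz (3 * (M - s.toNat)) (g s - s - s / 2)) -
      ex (1 / 9) M (fun s => H (g s - b - b / 2))| ≤ e := by
    intro g
    rw [← ex_sub]
    refine (abs_ex_le h0 h1 M _).trans ?_
    refine (ex_mono' h0 h1 M (fun s h3 h4 => cmp_point (B := B) (sz := sz) hM9 hκ h3 h4 (g s))).trans ?_
    rw [ex_smul]
    exact mul_le_mul_of_nonneg_left (herr M hM2) hq.le
  have hLR : ∀ r : ℤ, |LR B sz M r - ex (1 / 9) M (fun s => H (r - b - b / 2 + s / 2))| ≤ e := by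
    intro r
    have h3 := hcmp (fun s => r + s / 2)
    have e1 : (fun s : ℤ => HH B sz (3 * (M - s.toNat)) (r + s / 2 - s - s / 2)) =
        fun s : ℤ => HH B sz (3 * (M - s.toNat)) (r - s) := by
      funext s; congr 1; ring
    have e2 : (fun s : ℤ => H (r + s / 2 - b - b / 2)) =
        fun s : ℤ => H (r - b - b / 2 + s / 2) := by
      funext s; congr 1; ring
    rw [e1, e2] at h3
    exact h3
  have hFR : ∀ t : ℤ, |FR B sz M t - H (t - b - b / 2)| ≤ e := by
    intro t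
    have h3 : |ex (1 / 9) M (fun s => HH B sz (3 * (M - s.toNat)) (t - s - s / 2)) -
      ex (1 / 9) M (fun _ => H (t - b - b / 2))| ≤ e := hcmp (fun _ => t)
    rw [ex_const] at h3
    exact h3
  -- maximum of H
  obtain ⟨y0, hy0⟩ : ∃ y0, ∀ y, H y ≤ H y0 := by
    classical
    set F : Finset ℤ := (B ×ˢ range (3 * (M - M / 9) + 1)).image (fun x => sz x.1 + x.2) with hF
    have hFne : F.Nonempty := by
      obtain ⟨i, hi⟩ := hB
      exact ⟨sz i + (0 : ℕ), mem_image.2 ⟨(i, 0), mem_product.2 ⟨hi, by simp⟩, rfl⟩⟩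
    obtain ⟨y0, _, hy⟩ := Finset.exists_max_image F H hFne
    refine ⟨y0, fun y => ?_⟩
    by_cases hyF : y ∈ F
    · exact hy y hyF
    · have : H y = 0 := by
        rw [hH]
        unfold HH
        apply Finset.sum_eq_zero
        intro i hi
        by_cases hneg : y - sz i < 0
        · exact bb_neg _ _ hneg
        by_cases hbig : ((3 * (M - M / 9) : ℕ) : ℤ) < y - sz i
        · exact bb_big _ _ hbig
        exfalso
        apply hyF
        push Not at hneg hbig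
        obtain ⟨k, hk⟩ := Int.eq_ofNat_of_zero_le hneg
        refine mem_image.2 ⟨(i, k), mem_product.2 ⟨hi, ?_⟩, ?_⟩
        · rw [mem_range]
          rw [hk] at hbig
          have : k ≤ 3 * (M - M / 9) := by exact_mod_cast hbig
          omega
        · simp only
          linarith
      rw [this]
      exact HH_nonneg _ _
  set Gm : ℝ := H y0 with hGm
  have hGup : Gm ≤ q / Real.sqrt M := by
    refine (HH_le (B := B) (sz := sz) _ _).trans ?_
    apply div_le_div_of_nonneg_left hq.le hs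
    apply Real.sqrt_le_sqrt
    have : M ≤ 3 * (M - M / 9) + 1 := by omega
    exact_mod_cast this
  have hGlo : c * q / (2 * Real.sqrt M) ≤ Gm := by
    obtain ⟨r, hr⟩ := hr
    have h3 := (abs_le.1 (hLR r)).2
    have h4 : ex (1 / 9) M (fun s => H (r - b - b / 2 + s / 2)) ≤ Gm := by
      have := ex_mono h0 h1 M (fun s => hy0 (r - b - b / 2 + s / 2))
      rwa [ex_const] at this
    have h5 : e ≤ c * q / (2 * Real.sqrt M) := by
      rw [he]
      have : q * (τ / Real.sqrt M) ≤ q * (c / 2 / Real.sqrt M) :=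
        mul_le_mul_of_nonneg_left (div_le_div_of_nonneg_right hτc hs.le) hq.le
      refine this.trans (le_of_eq ?_)
      field_simp
    have h6 : c * q / Real.sqrt M = c * q / (2 * Real.sqrt M) + c * q / (2 * Real.sqrt M) := by
      field_simp
      norm_num
    linarith
  -- smoothing loses a constant factor
  obtain ⟨s1, hs1⟩ := hwin M hM1
  set D := ⌈4 / c * Real.sqrt M⌉₊ with hD
  have hDG : 2 * q ≤ D * Gm := by
    have h3 : 4 / c * Real.sqrt M ≤ (D : ℝ) := Nat.le_ceil _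
    calc 2 * q = (4 / c * Real.sqrt M) * (c * q / (2 * Real.sqrt M)) := by
          field_simp
          norm_num
      _ ≤ D * Gm := mul_le_mul h3 hGlo (by positivity) (by positivity)
  have hsmooth : ∀ x : ℤ, ex (1 / 9) M (fun s => H (x + s / 2)) ≤ Gm - η / Real.sqrt M * q := by
    intro x
    have h3 : ex (1 / 9) M (fun s => Gm - H (x + s / 2)) =
        Gm - ex (1 / 9) M (fun s => H (x + s / 2)) := by
      rw [ex_sub, ex_const]
    have h4 := sum_le_ex h0 h1 M (ψ := fun s => Gm - H (x + s / 2))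
      (fun s => by linarith [hy0 (x + s / 2)])
      ((range D).image (fun i : ℕ => ((s1 + 2 * (i + 1) : ℕ) : ℤ)))
    rw [Finset.sum_image (by
      intro a _ b _ h
      simp only at h
      omega)] at h4
    have h5 : ∑ i ∈ range D, η / Real.sqrt M * (Gm - H (x + ((s1 / 2 + (i + 1) : ℕ) : ℤ))) ≤
        ∑ i ∈ range D, bb (1 / 9) M (((s1 + 2 * (i + 1) : ℕ)) : ℤ) *
          (Gm - H (x + (((s1 + 2 * (i + 1) : ℕ)) : ℤ) / 2)) := by
      refine Finset.sum_le_sum fun i hi => ?_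
      rw [mem_range] at hi
      have e3 : ((((s1 + 2 * (i + 1) : ℕ)) : ℤ) / 2) = ((s1 / 2 + (i + 1) : ℕ) : ℤ) := by
        have : (s1 + 2 * (i + 1)) / 2 = s1 / 2 + (i + 1) := by omega
        rw [← this]
        push_cast
        rfl
      rw [e3]
      exact mul_le_mul_of_nonneg_right (hs1 _ (by omega) (by omega))
        (by linarith [hy0 (x + ((s1 / 2 + (i + 1) : ℕ) : ℤ))])
    rw [← Finset.mul_sum, Finset.sum_sub_distrib, Finset.sum_const, card_range, nsmul_eq_mul] at h5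
    have h6 : ∑ i ∈ range D, H (x + ((s1 / 2 + (i + 1) : ℕ) : ℤ)) ≤ q := by
      have h7 := HH_sum (B := B) (sz := sz) (3 * (M - M / 9))
        ((range D).image (fun i : ℕ => x + ((s1 / 2 + (i + 1) : ℕ) : ℤ)))
      rw [Finset.sum_image (by
        intro a _ b _ h
        simp only at h
        omega)] at h7
      exact h7
    have h8 : η / Real.sqrt M * q ≤ η / Real.sqrt M * (D * Gm -
        ∑ i ∈ range D, H (x + ((s1 / 2 + (i + 1) : ℕ) : ℤ))) :=
      mul_le_mul_of_nonneg_left (by linarith) (by positivity)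
    linarith
  refine ⟨y0 + b + b / 2, fun r => ?_⟩
  have h3 := (abs_le.1 (hFR (y0 + b + b / 2))).1
  have e4 : y0 + b + b / 2 - b - b / 2 = y0 := by ring
  rw [e4] at h3
  have h4 := (abs_le.1 (hLR r)).2
  have h5 := hsmooth (r - b - b / 2)
  set u : ℝ := q / Real.sqrt M with hu
  have hu0 : 0 < u := by positivity
  have he2 : e = τ * u := by rw [he, hu]; ring
  have hηu : η / Real.sqrt M * q = η * u := by rw [hu]; ring
  rw [hηu] at h5
  rw [he2] at h3 h4
  have h6 : LR B sz M r ≤ Gm - η * u + τ * u := by linarith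
  have h7 : τ * u ≤ η / 8 * u := mul_le_mul_of_nonneg_right hτη hu0.le
  have h8 : LR B sz M r ≤ 2 * u := by
    have : τ * u ≤ 1 * u := mul_le_mul_of_nonneg_right hτ1 hu0.le
    have h9 : 0 < η * u := by positivity
    linarith
  have h10 : η / 4 * LR B sz M r ≤ η / 4 * (2 * u) := mul_le_mul_of_nonneg_left h8 (by positivity)
  have h11 : 0 < η * u := by positivity
  have h12 : Gm - τ * u ≤ FR B sz M (y0 + b + b / 2) := by
    have : H y0 = Gm := rfl
    linarith
  nlinarith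

end Pool.Agent.V11328.W
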