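import Pool.Agent.V11328.W.Var
import Pool.Agent.V11328.Gnp

/-! Probability estimates for sparse random graphs: star components and reachable pairs. -/

open Finset

namespace Pool.Agent.V11328.W

open Pool.Agent.V11328

section general
variable {V : Type*} [Fintype V] [DecidableEq V]

open Classical in
/-- Probability of prescribed present and absent pairs. -/
lemma pres_prob (p : ℝ) {T1 T2 : Finset (Sym2 V)} (h1 : T1 ⊆ allE V) (h2 : T2 ⊆ allE V)
    (hd : Disjoint T1 T2) :
    ∑ G : SimpleGraph V, gw p G * (if T1 ⊆ ed G ∧ Disjoint T2 (ed G) then (1 : ℝ) else 0) =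
      p ^ #T1 * (1 - p) ^ #T2 := by
  have hs := sum_graph (V := V) (fun S => p ^ #S * (1 - p) ^ #(allE V \ S) *
    (if T1 ⊆ S ∧ Disjoint T2 S then (1 : ℝ) else 0))
  simp only [gw]
  rw [hs]
  have hterm : ∀ S ∈ (allE V).powerset, p ^ #S * (1 - p) ^ #(allE V \ S) *
      (if T1 ⊆ S ∧ Disjoint T2 S then (1 : ℝ) else 0) =
      (∏ e ∈ S, if e ∈ T2 then (0 : ℝ) else p) *
        ∏ e ∈ allE V \ S, if e ∈ T1 then (0 : ℝ) else (1 - p) := by
    intro S hS
    by_cases ha : Disjoint T2 S
    · have e1 : ∏ e ∈ S, (if e ∈ T2 then (0 : ℝ) else p) = p ^ #S := by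
        rw [← Finset.prod_const]
        refine Finset.prod_congr rfl fun e he => ?_
        rw [if_neg (fun h => (disjoint_left.1 ha) h he)]
      rw [e1]
      by_cases hb : T1 ⊆ S
      · rw [if_pos ⟨hb, ha⟩, mul_one]
        congr 1
        rw [← Finset.prod_const]
        refine Finset.prod_congr rfl fun e he => ?_
        rw [mem_sdiff] at he
        rw [if_neg (fun h => he.2 (hb h))]
      · rw [if_neg (fun h => hb h.1), mul_zero]
        obtain ⟨e, he1, he2⟩ := not_subset.1 hb
        have : ∏ e ∈ allE V \ S, (if e ∈ T1 then (0 : ℝ) else (1 - p)) = 0 := by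
          apply Finset.prod_eq_zero (i := e)
          · rw [mem_sdiff]; exact ⟨h1 he1, he2⟩
          · rw [if_pos he1]
        rw [this, mul_zero]
    · rw [if_neg (fun h => ha h.2), mul_zero]
      obtain ⟨e, he1, he2⟩ := not_disjoint_iff.1 ha
      have e1 : ∏ e ∈ S, (if e ∈ T2 then (0 : ℝ) else p) = 0 := by
        apply Finset.prod_eq_zero (i := e) he2
        rw [if_pos he1]
      rw [e1, zero_mul]
  rw [Finset.sum_congr rfl hterm, ← Finset.prod_add]
  have h3 : ∀ e ∈ allE V, ((if e ∈ T2 then (0 : ℝ) else p) + if e ∈ T1 then (0 : ℝ) else (1 - p)) =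
      (if e ∈ T1 then p else 1) * (if e ∈ T2 then (1 - p) else 1) := by
    intro e _
    by_cases ha : e ∈ T1
    · have hb : e ∉ T2 := fun h => (disjoint_left.1 hd) ha h
      rw [if_neg hb, if_pos ha, if_pos ha, if_neg hb]
      ring
    · by_cases hb : e ∈ T2
      · rw [if_pos hb, if_neg ha, if_neg ha, if_pos hb]
        ring
      · rw [if_neg hb, if_neg ha, if_neg ha, if_neg hb]
        ring
  rw [Finset.prod_congr rfl h3, Finset.prod_mul_distrib]
  congr 1
  · rw [← Finset.prod_filter, Finset.prod_const]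
    congr 2
    ext e
    simp only [mem_filter]
    exact ⟨fun h => h.2, fun h => ⟨h1 h, h⟩⟩
  · rw [← Finset.prod_filter, Finset.prod_const]
    congr 2
    ext e
    simp only [mem_filter]
    exact ⟨fun h => h.2, fun h => ⟨h2 h, h⟩⟩

/-- Edges of a vertex sequence. -/
def chE {k : ℕ} (f : Fin (k + 1) → V) : Finset (Sym2 V) :=
  univ.image fun i : Fin k => s(f i.castSucc, f i.succ)

lemma card_chE {k : ℕ} {f : Fin (k + 1) → V} (hf : Function.Injective f) : #(chE f) = k := by
  unfold chE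
  rw [card_image_of_injective, card_univ, Fintype.card_fin]
  intro i j h
  simp only at h
  rw [Sym2.eq_iff] at h
  rcases h with ⟨h1, _⟩ | ⟨h1, h2⟩
  · exact Fin.castSucc_injective _ (hf h1)
  · have h3 := congrArg Fin.val (hf h1)
    have h4 := congrArg Fin.val (hf h2)
    simp only [Fin.val_castSucc, Fin.val_succ] at h3 h4
    omega

lemma chE_sub {k : ℕ} {f : Fin (k + 1) → V} (hf : Function.Injective f) : chE f ⊆ allE V := by
  intro e he
  unfold chE at he
  rw [mem_image] at he
  obtain ⟨i, _, rfl⟩ := he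
  rw [mem_allE, Sym2.mk_isDiag_iff]
  intro h
  have := congrArg Fin.val (hf h)
  simp at this

open Classical in
lemma card_RR_le (G : SimpleGraph V) : (#(RR G) : ℝ) ≤
    ∑ k ∈ range (Fintype.card V), ∑ f : Fin (k + 1) → V,
      if Function.Injective f ∧ chE f ⊆ ed G then (1 : ℝ) else 0 := by
  have h1 : RR G ⊆ (range (Fintype.card V)).biUnion (fun k =>
      ((univ : Finset (Fin (k + 1) → V)).filter
        (fun f => Function.Injective f ∧ chE f ⊆ ed G)).image (fun f => (f 0, f (Fin.last k)))) := by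
    rintro ⟨u, v⟩ h
    have hr : G.Reachable u v := by simpa [RR] using h
    obtain ⟨w, hw⟩ := hr.exists_isPath
    rw [mem_biUnion]
    refine ⟨w.length, mem_range.2 hw.length_lt, ?_⟩
    rw [mem_image]
    refine ⟨fun i => w.getVert i, ?_, ?_⟩
    · rw [mem_filter]
      refine ⟨mem_univ _, ?_, ?_⟩
      · intro i j hij
        apply Fin.ext
        exact hw.getVert_injOn (by simp; omega) (by simp; omega) hij
      · intro e he
        unfold chE at he
        rw [mem_image] at he
        obtain ⟨i, _, rfl⟩ := he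
        rw [mem_ed]
        exact w.adj_getVert_succ i.2
    · simp
  have h2 := (card_le_card h1).trans card_biUnion_le
  have h3 : (#(RR G) : ℝ) ≤ ∑ k ∈ range (Fintype.card V),
      (#(((univ : Finset (Fin (k + 1) → V)).filter
        (fun f => Function.Injective f ∧ chE f ⊆ ed G)).image (fun f => (f 0, f (Fin.last k)))) : ℝ) := by
    exact_mod_cast h2
  refine h3.trans (Finset.sum_le_sum fun k _ => ?_)
  have h4 : (#(((univ : Finset (Fin (k + 1) → V)).filter
        (fun f => Function.Injective f ∧ chE f ⊆ ed G)).image (fun f => (f 0, f (Fin.last k)))) : ℝ) ≤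
      #((univ : Finset (Fin (k + 1) → V)).filter
        (fun f => Function.Injective f ∧ chE f ⊆ ed G)) := by
    exact_mod_cast card_image_le
  refine h4.trans (le_of_eq ?_)
  rw [Finset.card_filter]
  push_cast
  rfl

end general

variable {n : ℕ}

/-- Expected number of reachable pairs. -/
lemma exp_RR (hn : 1 ≤ n) : ∑ G : SimpleGraph (Fin n), gw (1 / 2 / (n : ℝ)) G * #(RR G) ≤ 2 * n := by
  classical
  set p : ℝ := 1 / 2 / (n : ℝ) with hp
  have hn0 : (1 : ℝ) ≤ n := by exact_mod_cast hn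
  have hp0 : 0 ≤ p := by positivity
  have hp1 : p ≤ 1 := by
    rw [hp, div_le_one (by linarith)]
    linarith
  have h1 : ∑ G : SimpleGraph (Fin n), gw p G * #(RR G) ≤
      ∑ G : SimpleGraph (Fin n), gw p G * ∑ k ∈ range (Fintype.card (Fin n)),
        ∑ f : Fin (k + 1) → Fin n, if Function.Injective f ∧ chE f ⊆ ed G then (1 : ℝ) else 0 :=
    Finset.sum_le_sum fun G _ => mul_le_mul_of_nonneg_left (card_RR_le G) (gw_nonneg hp0 hp1 G)
  refine h1.trans ?_
  simp_rw [Finset.mul_sum]
  rw [Finset.sum_comm]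
  have h2 : ∀ k ∈ range (Fintype.card (Fin n)), ∑ G : SimpleGraph (Fin n),
      ∑ f : Fin (k + 1) → Fin n, gw p G * (if Function.Injective f ∧ chE f ⊆ ed G then (1 : ℝ) else 0) ≤
      n * (1 / 2) ^ k := by
    intro k _
    rw [Finset.sum_comm]
    have h3 : ∀ f : Fin (k + 1) → Fin n, ∑ G : SimpleGraph (Fin n),
        gw p G * (if Function.Injective f ∧ chE f ⊆ ed G then (1 : ℝ) else 0) ≤ p ^ k := by
      intro f
      by_cases hf : Function.Injective f
      · have h4 := pres_prob p (chE_sub hf) (empty_subset (allE (Fin n))) (disjoint_empty_right _)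
        rw [card_chE hf, card_empty, pow_zero, mul_one] at h4
        rw [← h4]
        refine Finset.sum_le_sum fun G _ => ?_
        refine mul_le_mul_of_nonneg_left ?_ (gw_nonneg hp0 hp1 G)
        by_cases hc : chE f ⊆ ed G
        · rw [if_pos ⟨hf, hc⟩, if_pos ⟨hc, disjoint_empty_left _⟩]
        · rw [if_neg (fun h => hc h.2), if_neg (fun h => hc h.1)]
      · have : ∀ G : SimpleGraph (Fin n), gw p G *
            (if Function.Injective f ∧ chE f ⊆ ed G then (1 : ℝ) else 0) = 0 := by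
          intro G
          rw [if_neg (fun h => hf h.1), mul_zero]
        simp_rw [this]
        simp only [Finset.sum_const_zero]
        positivity
    refine (Finset.sum_le_sum fun f _ => h3 f).trans ?_
    rw [Finset.sum_const, card_univ, Fintype.card_fun, Fintype.card_fin, Fintype.card_fin,
      nsmul_eq_mul]
    push_cast
    rw [pow_succ, hp, div_pow]
    have : (n : ℝ) ^ k ≠ 0 := by positivity
    apply le_of_eq
    field_simp
  refine (Finset.sum_le_sum h2).trans ?_
  rw [← Finset.mul_sum, Fintype.card_fin, mul_comm]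
  refine mul_le_mul_of_nonneg_right ?_ (by positivity)
  have h5 : ∑ i ∈ range n, (1 / 2 : ℝ) ^ i = 2 - 2 * (1 / 2) ^ n := by
    rw [geom_sum_eq (by norm_num)]
    ring
  rw [h5]
  have : (0 : ℝ) ≤ (1 / 2) ^ n := by positivity
  linarith

/-- Pairs meeting a set. -/
noncomputable def tch (W : Finset (Fin n)) : Finset (Sym2 (Fin n)) := by
  classical exact (allE (Fin n)).filter fun e => ∃ x ∈ W, x ∈ e

lemma mem_tch {W : Finset (Fin n)} {e : Sym2 (Fin n)} :
    e ∈ tch W ↔ ¬ e.IsDiag ∧ ∃ x ∈ W, x ∈ e := by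
  classical
  simp [tch, mem_allE]

lemma card_tch (W : Finset (Fin n)) : #(tch W) ≤ #W * n := by
  classical
  have h : tch W ⊆ W.biUnion (fun x => univ.image (fun y => s(x, y))) := by
    intro e he
    rw [mem_tch] at he
    obtain ⟨_, x, hx, hxe⟩ := he
    rw [mem_biUnion]
    refine ⟨x, hx, ?_⟩
    obtain ⟨y, rfl⟩ := hxe
    exact mem_image.2 ⟨y, mem_univ _, rfl⟩
  refine (card_le_card h).trans (card_biUnion_le.trans ?_)
  refine (Finset.sum_le_card_nsmul _ _ n fun x _ => ?_).trans (le_of_eq (smul_eq_mul _ _))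
  refine card_image_le.trans ?_
  rw [card_univ, Fintype.card_fin]

/-- Star edges. -/
def stE (z : Fin n) (L : Finset (Fin n)) : Finset (Sym2 (Fin n)) := L.image fun y => s(z, y)

lemma mem_stE {z : Fin n} {L : Finset (Fin n)} {e : Sym2 (Fin n)} :
    e ∈ stE z L ↔ ∃ y ∈ L, s(z, y) = e := by
  simp [stE]

lemma star_nb {z : Fin n} {L : Finset (Fin n)} {G : SimpleGraph (Fin n)}
    (h1 : stE z L ⊆ ed G) (h2 : Disjoint (tch (insert z L) \ stE z L) (ed G)) (hz : z ∉ L) :
    (∀ y, G.Adj z y ↔ y ∈ L) ∧ ∀ y ∈ L, ∀ x, G.Adj y x → x = z := by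
  have key : ∀ e ∈ ed G, (∃ x ∈ insert z L, x ∈ e) → e ∈ stE z L := by
    intro e he hx
    by_contra hcon
    apply (disjoint_left.1 h2) _ he
    rw [mem_sdiff, mem_tch]
    exact ⟨⟨G.not_isDiag_of_mem_edgeSet ((mem_ed G e).1 he), hx⟩, hcon⟩
  constructor
  · intro y
    constructor
    · intro h
      have h3 := key s(z, y) ((mem_ed G _).2 h) ⟨z, mem_insert_self _ _, Sym2.mem_mk_left _ _⟩
      rw [mem_stE] at h3
      obtain ⟨l, hl, h4⟩ := h3
      have := Sym2.congr_right.1 h4
      rwa [← this]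
    · intro h
      have := h1 (mem_stE.2 ⟨y, h, rfl⟩)
      exact (mem_ed G _).1 this
  · intro y hy x hx
    have h3 := key s(y, x) ((mem_ed G _).2 hx) ⟨y, mem_insert_of_mem hy, Sym2.mem_mk_left _ _⟩
    rw [mem_stE] at h3
    obtain ⟨l, hl, h4⟩ := h3
    rw [Sym2.eq_iff] at h4
    rcases h4 with ⟨h5, _⟩ | ⟨h5, _⟩
    · exact absurd (h5 ▸ hy) hz
    · exact h5.symm

open Classical in
lemma card_ZZ_ge (G : SimpleGraph (Fin n)) :
    ∑ z : Fin n, ∑ L ∈ (univ.erase z).powersetCard 3,
      (if stE z L ⊆ ed G ∧ Disjoint (tch (insert z L) \ stE z L) (ed G) then (1 : ℝ) else 0) ≤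
      #(ZZ G) := by
  have h1 : (#(ZZ G) : ℝ) = ∑ z : Fin n, if z ∈ ZZ G then (1 : ℝ) else 0 := by
    rw [← Finset.sum_filter, Finset.sum_const, nsmul_eq_mul, mul_one]
    congr 2
    ext z; simp
  rw [h1]
  refine Finset.sum_le_sum fun z _ => ?_
  rw [← Finset.sum_filter, Finset.sum_const, nsmul_eq_mul, mul_one]
  set S := ((univ.erase z).powersetCard 3).filter
    (fun L => stE z L ⊆ ed G ∧ Disjoint (tch (insert z L) \ stE z L) (ed G)) with hS
  have hprop : ∀ L ∈ S, #L = 3 ∧ ((∀ y, G.Adj z y ↔ y ∈ L) ∧ ∀ y ∈ L, ∀ x, G.Adj y x → x = z) := by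
    intro L hL
    rw [hS, mem_filter, mem_powersetCard] at hL
    refine ⟨hL.1.2, star_nb hL.2.1 hL.2.2 ?_⟩
    intro h
    exact (mem_erase.1 (hL.1.1 h)).1 rfl
  by_cases hne : S.Nonempty
  · obtain ⟨L, hL⟩ := hne
    have hp := hprop L hL
    have hstar : z ∈ ZZ G := by
      rw [mem_ZZ]
      refine ⟨?_, fun y hy x hx => hp.2.2 y ((hp.2.1 y).1 hy) x hx⟩
      have : {y | G.Adj z y} = (L : Set (Fin n)) := by
        ext y
        exact hp.2.1 y
      rw [this, Set.ncard_coe_finset, hp.1]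
    rw [if_pos hstar]
    have hone : S ⊆ {L} := by
      intro L' hL'
      have hp' := hprop L' hL'
      rw [mem_singleton]
      ext y
      rw [← hp.2.1 y, ← hp'.2.1 y]
    have := card_le_card hone
    rw [card_singleton] at this
    exact_mod_cast this
  · rw [not_nonempty_iff_eq_empty] at hne
    rw [hne, card_empty]
    push_cast
    split_ifs <;> norm_num

/-- Expected number of star components. -/
lemma exp_ZZ (hn : 6 ≤ n) : (n : ℝ) / 6144 ≤
    ∑ G : SimpleGraph (Fin n), gw (1 / 2 / (n : ℝ)) G * #(ZZ G) := by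
  classical
  set p : ℝ := 1 / 2 / (n : ℝ) with hp
  have hn6 : (6 : ℝ) ≤ n := by exact_mod_cast hn
  have hn0 : (1 : ℝ) ≤ n := by linarith
  have hp0 : 0 ≤ p := by positivity
  have hp1 : p ≤ 1 := by
    rw [hp, div_le_one (by linarith)]
    linarith
  have hnp : (n : ℝ) * p = 1 / 2 := by
    rw [hp]; field_simp
  have h1 : ∑ G : SimpleGraph (Fin n), gw p G * ∑ z : Fin n, ∑ L ∈ (univ.erase z).powersetCard 3,
      (if stE z L ⊆ ed G ∧ Disjoint (tch (insert z L) \ stE z L) (ed G) then (1 : ℝ) else 0) ≤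
      ∑ G : SimpleGraph (Fin n), gw p G * #(ZZ G) :=
    Finset.sum_le_sum fun G _ => mul_le_mul_of_nonneg_left (card_ZZ_ge G) (gw_nonneg hp0 hp1 G)
  refine le_trans ?_ h1
  simp_rw [Finset.mul_sum]
  rw [Finset.sum_comm]
  have hpow : (1 / 16 : ℝ) ≤ (1 - p) ^ (4 * n) := by
    have h2 := one_add_mul_le_pow (a := -p) (by linarith) n
    have h3 : (1 / 2 : ℝ) ≤ (1 - p) ^ n := by
      have e : 1 + (n : ℝ) * -p = 1 / 2 := by
        have : (n : ℝ) * -p = - (n * p) := by ring
        rw [this, hnp]; norm_num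
      rw [e] at h2
      have e2 : 1 + -p = 1 - p := by ring
      rwa [e2] at h2
    have h4 : (1 - p) ^ (4 * n) = ((1 - p) ^ n) ^ 4 := by rw [← pow_mul, mul_comm]
    rw [h4]
    calc (1 / 16 : ℝ) = (1 / 2) ^ 4 := by norm_num
      _ ≤ _ := pow_le_pow_left₀ (by norm_num) h3 4
  have h2 : ∀ z : Fin n, (1 / 6144 : ℝ) ≤ ∑ G : SimpleGraph (Fin n),
      ∑ L ∈ (univ.erase z).powersetCard 3, gw p G *
      (if stE z L ⊆ ed G ∧ Disjoint (tch (insert z L) \ stE z L) (ed G) then (1 : ℝ) else 0) := by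
    intro z
    rw [Finset.sum_comm]
    have h3 : ∀ L ∈ (univ.erase z).powersetCard 3, p ^ 3 * (1 / 16) ≤ ∑ G : SimpleGraph (Fin n),
        gw p G * (if stE z L ⊆ ed G ∧ Disjoint (tch (insert z L) \ stE z L) (ed G)
          then (1 : ℝ) else 0) := by
      intro L hL
      rw [mem_powersetCard] at hL
      have hzL : z ∉ L := fun h => (mem_erase.1 (hL.1 h)).1 rfl
      have hst : stE z L ⊆ allE (Fin n) := by
        intro e he
        rw [mem_stE] at he
        obtain ⟨y, hy, rfl⟩ := he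
        rw [mem_allE, Sym2.mk_isDiag_iff]
        intro hzy
        have hzy' : z = y := hzy
        exact hzL (hzy' ▸ hy)
      have htc : tch (insert z L) \ stE z L ⊆ allE (Fin n) := by
        intro e he
        rw [mem_sdiff, mem_tch] at he
        exact (mem_allE e).2 he.1.1
      rw [pres_prob p hst htc disjoint_sdiff]
      have hc1 : #(stE z L) = 3 := by
        unfold stE
        rw [card_image_of_injective _ (fun a b h => Sym2.congr_right.1 h), hL.2]
      have hc2 : #(tch (insert z L) \ stE z L) ≤ 4 * n := by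
        refine (card_le_card sdiff_subset).trans ((card_tch _).trans ?_)
        rw [card_insert_of_notMem hzL, hL.2]
      rw [hc1]
      refine mul_le_mul_of_nonneg_left ?_ (by positivity)
      exact hpow.trans (pow_le_pow_of_le_one (by linarith) (by linarith) hc2)
    refine le_trans ?_ (Finset.card_nsmul_le_sum _ _ _ h3)
    rw [card_powersetCard, card_erase_of_mem (mem_univ z), card_univ, Fintype.card_fin, nsmul_eq_mul]
    have h4 : (n : ℝ) ^ 3 / 48 ≤ ((n - 1).choose 3 : ℝ) := by
      have h5 := Nat.pow_sub_le_descFactorial (n - 1) 3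
      rw [Nat.descFactorial_eq_factorial_mul_choose] at h5
      have h6 : ((n - 1 + 1 - 3 : ℕ) : ℝ) ^ 3 ≤ 6 * ((n - 1).choose 3 : ℝ) := by
        have : Nat.factorial 3 = 6 := rfl
        rw [this] at h5
        exact_mod_cast h5
      have h7 : (n : ℝ) / 2 ≤ ((n - 1 + 1 - 3 : ℕ) : ℝ) := by
        rw [div_le_iff₀ (by norm_num)]
        have : n ≤ (n - 1 + 1 - 3) * 2 := by omega
        exact_mod_cast this
      have h8 : ((n : ℝ) / 2) ^ 3 ≤ ((n - 1 + 1 - 3 : ℕ) : ℝ) ^ 3 :=
        pow_le_pow_left₀ (by positivity) h7 3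
      have h9 : ((n : ℝ) / 2) ^ 3 = n ^ 3 / 8 := by ring
      linarith
    have h5 : (n : ℝ) ^ 3 / 48 * (p ^ 3 * (1 / 16)) = 1 / 6144 := by
      have : (n : ℝ) ^ 3 * p ^ 3 = 1 / 8 := by rw [← mul_pow, hnp]; norm_num
      calc (n : ℝ) ^ 3 / 48 * (p ^ 3 * (1 / 16)) = (n : ℝ) ^ 3 * p ^ 3 / 768 := by ring
        _ = 1 / 6144 := by rw [this]; norm_num
    rw [← h5]
    exact mul_le_mul_of_nonneg_right h4 (by positivity)
  have h3 := Finset.card_nsmul_le_sum univ _ _ (fun z _ => h2 z)
  rw [card_univ, Fintype.card_fin, nsmul_eq_mul] at h3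
  linarith

end Pool.Agent.V11328.W
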