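import Pool.Agent.V11328.W.Count

/-! Variance of the size of a uniform independent set, and the deterministic theorem. -/

open Finset

namespace Pool.Agent.V11328.W

variable {V : Type*} [Fintype V] [DecidableEq V] {G : SimpleGraph V}

open Classical in
/-- Pairs of vertices in the same component. -/
noncomputable def RR (G : SimpleGraph V) : Finset (V × V) :=
  univ.filter fun p => G.Reachable p.1 p.2

/-- Indicator difference. -/
def dif (u : V) (p : Finset V × Finset V) : ℝ :=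
  (if u ∈ p.1 then 1 else 0) - (if u ∈ p.2 then 1 else 0)

lemma abs_dif (u : V) (p : Finset V × Finset V) : |dif u p| ≤ 1 := by
  unfold dif
  split_ifs <;> norm_num

lemma sum_dif (p : Finset V × Finset V) : ((#p.1 : ℝ) - #p.2) = ∑ u, dif u p := by
  unfold dif
  rw [Finset.sum_sub_distrib]
  congr 1 <;> simp

/-- Swapping the two sets on the component `K`. -/
def swp (K : Finset V) (p : Finset V × Finset V) : Finset V × Finset V :=
  ((p.1 \ K) ∪ (p.2 ∩ K), (p.2 \ K) ∪ (p.1 ∩ K))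

lemma swp_swp (K : Finset V) (p : Finset V × Finset V) : swp K (swp K p) = p := by
  unfold swp
  apply Prod.ext
  · ext x
    simp only [mem_union, mem_sdiff, mem_inter]
    tauto
  · ext x
    simp only [mem_union, mem_sdiff, mem_inter]
    tauto

open Classical in
/-- The component of `u`. -/
noncomputable def KK (G : SimpleGraph V) (u : V) : Finset V := univ.filter fun x => G.Reachable u x

lemma mem_KK {u x : V} : x ∈ KK G u ↔ G.Reachable u x := by
  classical
  simp [KK]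

lemma KK_adj {u x y : V} (h : G.Adj x y) : x ∈ KK G u ↔ y ∈ KK G u := by
  rw [mem_KK, mem_KK]
  exact ⟨fun h1 => h1.trans h.reachable, fun h1 => h1.trans h.reachable.symm⟩

lemma half_ind {A A' : Finset V} (hA : A ∈ ind G) (hA' : A' ∈ ind G) (u : V) :
    (A \ KK G u) ∪ (A' ∩ KK G u) ∈ ind G := by
  rw [mem_ind] at hA hA' ⊢
  intro x hx y hy hxy
  have hk := KK_adj (u := u) hxy
  simp only [mem_union, mem_sdiff, mem_inter] at hx hy
  rcases hx with hx | hx <;> rcases hy with hy | hy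
  · exact hA x hx.1 y hy.1 hxy
  · exact hx.2 (hk.2 hy.2)
  · exact hy.2 (hk.1 hx.2)
  · exact hA' x hx.1 y hy.1 hxy

lemma swp_mem {p : Finset V × Finset V} (hp : p ∈ ind G ×ˢ ind G) (u : V) :
    swp (KK G u) p ∈ ind G ×ˢ ind G := by
  rw [mem_product] at hp ⊢
  exact ⟨half_ind hp.1 hp.2 u, half_ind hp.2 hp.1 u⟩

lemma dif_swp_in {K : Finset V} {u : V} (h : u ∈ K) (p : Finset V × Finset V) :
    dif u (swp K p) = - dif u p := by
  unfold dif swp
  simp only [mem_union, mem_sdiff, mem_inter, h, not_true_eq_false, and_false, and_true, false_or]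
  ring

lemma dif_swp_out {K : Finset V} {u : V} (h : u ∉ K) (p : Finset V × Finset V) :
    dif u (swp K p) = dif u p := by
  unfold dif swp
  simp only [mem_union, mem_sdiff, mem_inter, h, not_false_eq_true, and_false, and_true, or_false]

lemma cov_zero {u v : V} (h : ¬ G.Reachable u v) :
    ∑ p ∈ ind G ×ˢ ind G, dif u p * dif v p = 0 := by
  have h1 : ∑ p ∈ ind G ×ˢ ind G, dif u p * dif v p =
      ∑ p ∈ ind G ×ˢ ind G, dif u (swp (KK G u) p) * dif v (swp (KK G u) p) := by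
    refine Finset.sum_nbij' (swp (KK G u)) (swp (KK G u)) (fun p hp => swp_mem hp u)
      (fun p hp => swp_mem hp u) (fun p _ => swp_swp _ p) (fun p _ => swp_swp _ p) ?_
    intro p _
    rw [swp_swp]
  have h2 : ∑ p ∈ ind G ×ˢ ind G, dif u (swp (KK G u) p) * dif v (swp (KK G u) p) =
      - ∑ p ∈ ind G ×ˢ ind G, dif u p * dif v p := by
    rw [← Finset.sum_neg_distrib]
    refine Finset.sum_congr rfl fun p _ => ?_
    rw [dif_swp_in (mem_KK.2 (SimpleGraph.Reachable.refl u)), dif_swp_out (fun h' => h (mem_KK.1 h'))]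
    ring
  linarith

/-- Variance bound. -/
lemma var_bound : ∑ p ∈ ind G ×ˢ ind G, ((#p.1 : ℝ) - #p.2) ^ 2 ≤ #(RR G) * (#(ind G) : ℝ) ^ 2 := by
  classical
  have h1 : ∀ p ∈ ind G ×ˢ ind G, ((#p.1 : ℝ) - #p.2) ^ 2 =
      ∑ x : V × V, dif x.1 p * dif x.2 p := by
    intro p _
    rw [sum_dif, sq, Finset.sum_mul_sum, ← Finset.univ_product_univ, Finset.sum_product]
  rw [Finset.sum_congr rfl h1, Finset.sum_comm]
  have h2 : ∀ x : V × V, ∑ p ∈ ind G ×ˢ ind G, dif x.1 p * dif x.2 p ≤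
      if x ∈ RR G then (#(ind G) : ℝ) ^ 2 else 0 := by
    intro x
    split_ifs with h
    · have h3 : ∀ p ∈ ind G ×ˢ ind G, dif x.1 p * dif x.2 p ≤ 1 := by
        intro p _
        have a1 := abs_dif x.1 p
        have a2 := abs_dif x.2 p
        refine (le_abs_self _).trans ?_
        rw [abs_mul]
        exact mul_le_one₀ a1 (abs_nonneg _) a2
      refine (Finset.sum_le_card_nsmul _ _ _ h3).trans ?_
      rw [card_product, nsmul_eq_mul, mul_one]
      push_cast
      rw [sq]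
    · have : ¬ G.Reachable x.1 x.2 := by
        intro hr
        exact h (by simp [RR, hr])
      rw [cov_zero this]
  refine (Finset.sum_le_sum fun x _ => h2 x).trans ?_
  rw [← Finset.sum_filter, Finset.sum_const, nsmul_eq_mul]
  have : univ.filter (· ∈ RR G) = RR G := by ext x; simp
  rw [this]

lemma ind_pos : 0 < #(ind G) := by
  rw [card_pos]
  exact ⟨∅, by rw [mem_ind]; simp⟩

/-- A large layer exists. -/
lemma big_layer {D : ℝ} (hD : 0 < D) (h : 2 * (#(RR G) : ℝ) ≤ D ^ 2) :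
    ∃ r : ℕ, (#(ind G) : ℝ) / (2 * (2 * D + 1)) ≤ #((ind G).filter fun A => (#A : ℤ) = r) := by
  classical
  by_contra hcon
  push Not at hcon
  set Q : ℝ := (#(ind G) : ℝ) with hQ
  have hQ0 : 0 < Q := by rw [hQ]; exact_mod_cast ind_pos
  -- close pairs
  set P := (ind G ×ˢ ind G).filter (fun p => |((#p.1 : ℝ) - #p.2)| < D) with hP
  have h1 : Q ^ 2 / 2 ≤ #P := by
    have h2 := var_bound (G := G)
    have h3 : ∑ p ∈ (ind G ×ˢ ind G).filter (fun p => ¬ |((#p.1 : ℝ) - #p.2)| < D), D ^ 2 ≤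
        ∑ p ∈ ind G ×ˢ ind G, ((#p.1 : ℝ) - #p.2) ^ 2 := by
      refine le_trans (Finset.sum_le_sum fun p hp => ?_)
        (Finset.sum_le_sum_of_subset_of_nonneg (filter_subset _ _) (fun p _ _ => sq_nonneg _))
      rw [mem_filter, not_lt] at hp
      rw [← sq_abs ((#p.1 : ℝ) - #p.2)]
      exact pow_le_pow_left₀ hD.le hp.2 2
    rw [Finset.sum_const, nsmul_eq_mul] at h3
    have h4 : #P + #((ind G ×ˢ ind G).filter (fun p => ¬ |((#p.1 : ℝ) - #p.2)| < D)) =
        #(ind G ×ˢ ind G) := card_filter_add_card_filter_not _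
    rw [card_product] at h4
    have h5 : (#P : ℝ) + #((ind G ×ˢ ind G).filter (fun p => ¬ |((#p.1 : ℝ) - #p.2)| < D)) =
        Q * Q := by
      rw [hQ]; exact_mod_cast h4
    have h6 : (#((ind G ×ˢ ind G).filter (fun p => ¬ |((#p.1 : ℝ) - #p.2)| < D)) : ℝ) * D ^ 2 ≤
        D ^ 2 / 2 * Q ^ 2 := by
      refine (h3.trans h2).trans ?_
      exact mul_le_mul_of_nonneg_right (by linarith) (by positivity)
    have h7 : (#((ind G ×ˢ ind G).filter (fun p => ¬ |((#p.1 : ℝ) - #p.2)| < D)) : ℝ) ≤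
        Q ^ 2 / 2 := by
      have hD2 : 0 < D ^ 2 := by positivity
      refine le_of_mul_le_mul_right ?_ hD2
      linarith
    nlinarith
  -- upper bound for the close pairs
  have h2 : (#P : ℝ) < Q * ((2 * D + 1) * (Q / (2 * (2 * D + 1)))) := by
    have h3 : #P = ∑ A' ∈ ind G, #((ind G).filter fun A => |((#A : ℝ) - #A')| < D) := by
      rw [hP, Finset.card_filter, Finset.sum_product_right]
      refine Finset.sum_congr rfl fun A' _ => ?_
      rw [Finset.card_filter]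
    rw [h3]
    push_cast
    have h4 : ∀ A' ∈ ind G, (#((ind G).filter fun A => |((#A : ℝ) - #A')| < D) : ℝ) <
        (2 * D + 1) * (Q / (2 * (2 * D + 1))) := by
      intro A' _
      -- the possible sizes
      set S : Finset ℕ := Finset.Icc (⌈(#A' : ℝ) - D⌉₊) (⌊(#A' : ℝ) + D⌋₊) with hS
      have hsub : (ind G).filter (fun A => |((#A : ℝ) - #A')| < D) ⊆
          S.biUnion (fun r => (ind G).filter fun A => (#A : ℤ) = r) := by
        intro A hA
        rw [mem_filter] at hA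
        have h5 := abs_lt.1 hA.2
        rw [mem_biUnion]
        refine ⟨#A, ?_, mem_filter.2 ⟨hA.1, rfl⟩⟩
        rw [hS, mem_Icc]
        exact ⟨Nat.ceil_le.2 (by linarith [h5.1]), Nat.le_floor (by linarith [h5.2])⟩
      have h5 : (#((ind G).filter fun A => |((#A : ℝ) - #A')| < D) : ℝ) ≤
          ∑ r ∈ S, (#((ind G).filter fun A => (#A : ℤ) = r) : ℝ) := by
        exact_mod_cast (card_le_card hsub).trans card_biUnion_le
      have hSc : (#S : ℝ) ≤ 2 * D + 1 := by
        rw [hS, Nat.card_Icc]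
        have h6 : (⌊(#A' : ℝ) + D⌋₊ : ℝ) ≤ (#A' : ℝ) + D := Nat.floor_le (by positivity)
        have h7 : (#A' : ℝ) - D ≤ (⌈(#A' : ℝ) - D⌉₊ : ℝ) := Nat.le_ceil _
        by_cases hle : ⌈(#A' : ℝ) - D⌉₊ ≤ ⌊(#A' : ℝ) + D⌋₊ + 1
        · rw [Nat.cast_sub hle]
          push_cast
          linarith
        · rw [Nat.sub_eq_zero_of_le (by omega)]
          push_cast
          positivity
      have hSne : S.Nonempty := by
        refine ⟨#A', ?_⟩
        rw [hS, mem_Icc]
        exact ⟨Nat.ceil_le.2 (by linarith), Nat.le_floor (by linarith)⟩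
      calc (#((ind G).filter fun A => |((#A : ℝ) - #A')| < D) : ℝ)
          ≤ ∑ r ∈ S, (#((ind G).filter fun A => (#A : ℤ) = r) : ℝ) := h5
        _ < ∑ r ∈ S, Q / (2 * (2 * D + 1)) := Finset.sum_lt_sum_of_nonempty hSne fun r _ => hcon r
        _ = #S * (Q / (2 * (2 * D + 1))) := by rw [Finset.sum_const, nsmul_eq_mul]
        _ ≤ _ := mul_le_mul_of_nonneg_right hSc (by positivity)
    have h5 := Finset.sum_lt_sum_of_nonempty (card_pos.1 (ind_pos (G := G))) h4
    rw [Finset.sum_const, nsmul_eq_mul] at h5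
    exact h5
  have h3 : Q * ((2 * D + 1) * (Q / (2 * (2 * D + 1)))) = Q ^ 2 / 2 := by
    field_simp
  rw [h3] at h2
  linarith

/-- The deterministic theorem. -/
theorem det {K κ : ℝ} (hK : 0 < K) (hκ : 0 < κ) : ∃ ε : ℝ, 0 < ε ∧ ∃ n0 : ℕ, ∀ n : ℕ, n0 ≤ n →
    ∀ G : SimpleGraph (Fin n), (#(RR G) : ℝ) ≤ K * n → κ * n ≤ #(ZZ G) →
      ∃ F : Finset (Finset (Fin n)), F ⊆ ind G ∧
        IsAntichain (fun A B : Finset (Fin n) => A ⊆ B) (F : Set (Finset (Fin n))) ∧
        ∀ r : ℤ, (1 + ε) * (#((ind G).filter fun A => (#A : ℤ) = r) : ℝ) < #F := by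
  set c : ℝ := Real.sqrt κ / (4 * Real.sqrt (2 * K) + 2) with hc
  have hc0 : 0 < c := by positivity
  obtain ⟨ε, hε, M0, hmain⟩ := main_ineq hc0
  refine ⟨ε, hε, ⌈(M0 : ℝ) / κ⌉₊ + 1, fun n hn G hR hM => ?_⟩
  have hn1 : (1 : ℝ) ≤ n := by
    have : 1 ≤ n := by omega
    exact_mod_cast this
  have hn0 : (0 : ℝ) < n := by linarith
  have hMM : M0 ≤ #(ZZ G) := by
    have h1 : (M0 : ℝ) / κ ≤ (⌈(M0 : ℝ) / κ⌉₊ : ℝ) := Nat.le_ceil _
    have h2 : ((⌈(M0 : ℝ) / κ⌉₊ + 1 : ℕ) : ℝ) ≤ n := by exact_mod_cast hn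
    push_cast at h2
    have h3 : (M0 : ℝ) / κ ≤ n := by linarith
    rw [div_le_iff₀ hκ] at h3
    have h4 : (M0 : ℝ) ≤ #(ZZ G) := by linarith
    exact_mod_cast h4
  set M := #(ZZ G) with hMdef
  have hM0 : (0 : ℝ) < M := lt_of_lt_of_le (by positivity) hM
  have hBne : (BB G).Nonempty := by
    refine ⟨∅, mem_BB.2 ⟨?_, empty_subset _⟩⟩
    rw [mem_ind]; simp
  have hq : (0 : ℝ) < #(BB G) := by exact_mod_cast card_pos.2 hBne
  -- a large layer
  have hsn : 0 < Real.sqrt n := Real.sqrt_pos.2 hn0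
  have hsn1 : 1 ≤ Real.sqrt n := by rw [Real.one_le_sqrt]; exact hn1
  have hsn2 : Real.sqrt n * Real.sqrt n = n := Real.mul_self_sqrt hn0.le
  have hsK2 : Real.sqrt (2 * K) * Real.sqrt (2 * K) = 2 * K := Real.mul_self_sqrt (by positivity)
  have hsK : 0 < Real.sqrt (2 * K) := Real.sqrt_pos.2 (by positivity)
  obtain ⟨r, hr⟩ := big_layer (G := G) (D := Real.sqrt (2 * K) * Real.sqrt n) (by positivity) (by
    have e : (Real.sqrt (2 * K) * Real.sqrt n) ^ 2 =
        (Real.sqrt (2 * K) * Real.sqrt (2 * K)) * (Real.sqrt n * Real.sqrt n) := by ring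
    rw [e, hsK2, hsn2]
    linarith)
  have h9 : (0 : ℝ) < 9 ^ M := by positivity
  have hlayer : c * #(BB G) / Real.sqrt M ≤ LR (BB G) (fun B => (#B : ℤ)) M r := by
    rw [layer_eq, count_all, ← hMdef] at hr
    have h1 : (9 : ℝ) ^ M * #(BB G) / (2 * (2 * (Real.sqrt (2 * K) * Real.sqrt n) + 1)) =
        9 ^ M * (#(BB G) / (2 * (2 * (Real.sqrt (2 * K) * Real.sqrt n) + 1))) := by ring
    rw [h1] at hr
    have h2 := le_of_mul_le_mul_left hr h9
    refine le_trans ?_ h2
    have hsM : Real.sqrt κ * Real.sqrt n ≤ Real.sqrt M := by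
      rw [← Real.sqrt_mul hκ.le]
      exact Real.sqrt_le_sqrt hM
    have hsκ : 0 < Real.sqrt κ := Real.sqrt_pos.2 hκ
    have hsM0 : 0 < Real.sqrt M := Real.sqrt_pos.2 hM0
    rw [div_le_div_iff₀ hsM0 (by positivity), hc]
    have h3 : 2 * (2 * (Real.sqrt (2 * K) * Real.sqrt n) + 1) ≤
        (4 * Real.sqrt (2 * K) + 2) * Real.sqrt n := by nlinarith
    calc Real.sqrt κ / (4 * Real.sqrt (2 * K) + 2) * #(BB G) *
          (2 * (2 * (Real.sqrt (2 * K) * Real.sqrt n) + 1))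
        ≤ Real.sqrt κ / (4 * Real.sqrt (2 * K) + 2) * #(BB G) *
          ((4 * Real.sqrt (2 * K) + 2) * Real.sqrt n) :=
          mul_le_mul_of_nonneg_left h3 (by positivity)
      _ = #(BB G) * (Real.sqrt κ * Real.sqrt n) := by
          field_simp
      _ ≤ #(BB G) * Real.sqrt M := mul_le_mul_of_nonneg_left hsM hq.le
  obtain ⟨t, ht⟩ := hmain M hMM _ (BB G) (fun B => (#B : ℤ)) hBne ⟨r, hlayer⟩
  refine ⟨(ind G).filter fun A => ((#A + #(A ∩ ZZ G) / 2 : ℕ) : ℤ) = t, filter_subset _ _,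
    level_antichain (ZZ G) t, fun r' => ?_⟩
  rw [layer_eq, level_eq, ← hMdef]
  have h1 := mul_lt_mul_of_pos_left (ht r') h9
  linarith

end Pool.Agent.V11328.W
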